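import Pool.Agent.W36.GS.S16
import Pool.Agent.W36.GL.L5

/-! The survivors of the maps `T_d`: counts in intervals and in the fibres of linear forms. -/

set_option autoImplicit false

namespace Pool.Agent.W36.GT

open Finset Pool.Agent.W36.GK Pool.Agent.H499R2.CO Pool.Agent.W36.GS

open Classical in
/-- the number of the survivors in an interval -/
theorem surv_int {d : ℤ} (hdo : d % 2 = 1) {L : ℤ} (hL : L % 2 = 1) (k : ℕ) (st : ℕ × ℤ) (c u : ℤ) : ∀ m : ℕ,
    (((Ico u (u + m * 2 ^ k)).filter (fun t => surv d k st (L * t + c))).card : ℝ) = m * (2 ^ k * q step (0, 0) k st) := by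
  intro m
  induction m with
  | zero => simp
  | succ m ih =>
    have h0 : (0 : ℤ) ≤ 2 ^ k := by positivity
    have e1 : Ico u (u + ((m + 1 : ℕ) : ℤ) * 2 ^ k) = Ico u (u + m * 2 ^ k) ∪ Ico (u + m * 2 ^ k) (u + ((m + 1 : ℕ) : ℤ) * 2 ^ k) := by
      rw [Ico_union_Ico_eq_Ico]
      · have : 0 ≤ (m : ℤ) * 2 ^ k := by positivity
        linarith
      · push_cast; linarith
    have hd : Disjoint (Ico u (u + (m : ℤ) * 2 ^ k)) (Ico (u + (m : ℤ) * 2 ^ k) (u + ((m + 1 : ℕ) : ℤ) * 2 ^ k)) := by
      rw [disjoint_left]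
      intro t ht ht'
      rw [mem_Ico] at ht ht'
      linarith [ht.2, ht'.1]
    rw [e1, filter_union, card_union_of_disjoint (disjoint_filter_filter hd)]
    push_cast
    rw [ih]
    have e2 : (((Ico (u + (m : ℤ) * 2 ^ k) (u + ((m : ℤ) + 1) * 2 ^ k)).filter (fun t => surv d k st (L * t + c))).card : ℝ) =
        2 ^ k * q step (0, 0) k st := by
      rw [← count_surv (d := d) hdo k st, ← sum_affine k (fun x => if surv d k st x then (1 : ℝ) else 0) (by
        intro x m
        simp only [surv_periodic (d := d) hdo k st x m]) (a := L) hL (L * (u + m * 2 ^ k) + c)]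
      rw [card_filter]
      push_cast
      symm
      apply sum_bij' (fun (i : ℕ) _ => u + m * 2 ^ k + (i : ℤ)) (fun (t : ℤ) _ => (t - (u + m * 2 ^ k)).toNat)
      · intro i hi
        rw [mem_range] at hi
        rw [mem_Ico]
        have : (i : ℤ) < 2 ^ k := by exact_mod_cast hi
        constructor <;> linarith [Int.natCast_nonneg i]
      · intro t ht
        rw [mem_Ico] at ht
        rw [mem_range]
        have h3 : t - (u + m * 2 ^ k) < 2 ^ k := by linarith [ht.2]
        have h4 : 0 ≤ t - (u + m * 2 ^ k) := by linarith [ht.1]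
        zify
        rw [Int.toNat_of_nonneg h4]
        push_cast
        exact h3
      · intro i _
        simp
      · intro t ht
        rw [mem_Ico] at ht
        rw [Int.toNat_of_nonneg (by linarith [ht.1])]
        ring
      · intro i _
        have e3 : L * (i : ℤ) + (L * (u + m * 2 ^ k) + c) = L * (u + m * 2 ^ k + i) + c := by ring
        rw [e3]
    rw [e2]
    ring

open Classical in
theorem surv_Icc {d : ℤ} (hdo : d % 2 = 1) {L : ℤ} (hL : L % 2 = 1) (k : ℕ) (st : ℕ × ℤ) (c u v : ℤ) (huv : u ≤ v) :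
    (((Icc u v).filter (fun t => surv d k st (L * t + c))).card : ℝ) ≤ ((v - u : ℤ) + 2 ^ k : ℝ) * q step (0, 0) k st := by
  have h2 : (0 : ℤ) < 2 ^ k := by positivity
  have h2R : (0 : ℝ) < 2 ^ k := by positivity
  set m : ℕ := ((v - u) / 2 ^ k).toNat + 1 with hm
  have hm' : (m : ℤ) = (v - u) / 2 ^ k + 1 := by
    rw [hm]; push_cast
    rw [Int.toNat_of_nonneg (Int.ediv_nonneg (by linarith) h2.le)]
  have h3 : v - u < m * 2 ^ k := by
    rw [hm']
    exact Int.lt_ediv_add_one_mul_self _ h2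
  have h4 : ((m : ℤ) - 1) * 2 ^ k ≤ v - u := by
    rw [hm']
    have := Int.ediv_mul_le (v - u) h2.ne'
    linarith
  have h5 : (((Icc u v).filter (fun t => surv d k st (L * t + c))).card : ℝ) ≤
      (((Ico u (u + m * 2 ^ k)).filter (fun t => surv d k st (L * t + c))).card : ℝ) := by
    have : ((Icc u v).filter (fun t => surv d k st (L * t + c))).card ≤ ((Ico u (u + m * 2 ^ k)).filter (fun t => surv d k st (L * t + c))).card := by
      apply card_le_card
      apply filter_subset_filter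
      intro t ht
      rw [mem_Icc] at ht
      rw [mem_Ico]
      constructor <;> linarith [ht.1, ht.2]
    exact_mod_cast this
  refine h5.trans ?_
  rw [surv_int hdo hL, ← mul_assoc]
  have hq : 0 ≤ q step (0, 0) k st := by
    have h6 := surv_int hdo hL k st c u 1
    push_cast at h6
    have h7 : 0 ≤ (1 : ℝ) * (2 ^ k * q step (0, 0) k st) := by rw [← h6]; positivity
    have h8 : 0 ≤ (2 : ℝ) ^ k * q step (0, 0) k st := by linarith
    exact (mul_nonneg_iff_of_pos_left h2R).1 h8
  apply mul_le_mul_of_nonneg_right _ hq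
  have h9 : (((m : ℤ) - 1) * 2 ^ k : ℝ) ≤ ((v - u : ℤ) : ℝ) := by exact_mod_cast h4
  push_cast at h9 ⊢
  linarith

open Classical in
/-- points at which the value of a form survives -/
theorem ub2 {d : ℤ} (hdo : d % 2 = 1) {L : ℤ} (hL : L % 2 = 1) {D H X k : ℕ} {s : (Fin (D + 1) → ℤ) → ℝ} (hs : ∀ x, 0 ≤ s x) {C : ℝ} (hC0 : 0 ≤ C)
    (hC : ∀ y, ∑ h ∈ cube (D + 1) H, s (y + ((2 ^ k : ℕ) : ℤ) • h) ≤ C) {P P' : Fin (D + 1) → ℤ}
    (hP : ∀ j, P' j - P j + 2 ^ k * H ≤ X) {a : Fin (D + 1) → ℤ} (ha : a ≠ 0) (c : ℤ) (st : ℕ × ℤ) :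
    (H : ℝ) ^ (D + 1) * ∑ x ∈ (box P P').filter (fun x => surv d k st (L * dot a x + c)), s x ≤
      C * (((2 * (sz a * X) : ℤ) + 2 ^ k : ℝ) * q step (0, 0) k st * (X : ℝ) ^ D) := by
  have h2k : ((2 ^ k : ℕ) : ℤ) ≠ 0 := by positivity
  have hinj : Function.Injective (fun h : Fin (D + 1) → ℤ => ((2 ^ k : ℕ) : ℤ) • h) := by
    intro h h' hh
    ext j
    have h1 := congrFun hh j
    simp only [Pi.smul_apply, smul_eq_mul] at h1
    exact mul_left_cancel₀ h2k h1
  have h1 := avg_le hs ((cube (D + 1) H).image (fun h => ((2 ^ k : ℕ) : ℤ) • h)) ((box P P').filter (fun x => surv d k st (L * dot a x + c)))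
    ((box (fun j => P j - (2 ^ k : ℕ) * H) P').filter (fun x => surv d k st (L * dot a x + c))) (by
      intro x hx h' hh'
      obtain ⟨h, hh, rfl⟩ := mem_image.1 hh'
      rw [mem_filter] at hx
      rw [mem_filter]
      refine ⟨box_sub (m := 2 ^ k) hx.1 hh, ?_⟩
      rw [dot_sub', dot_smul']
      have e : L * (dot a x - ((2 ^ k : ℕ) : ℤ) * dot a h) + c = L * dot a x + c + (-(L * dot a h)) * 2 ^ k := by push_cast; ring
      rw [e, surv_periodic (d := d) hdo]
      exact hx.2) (C := C) (by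
      intro y
      rw [sum_image (fun x _ x' _ h3 => hinj h3)]
      exact hC y)
  rw [card_image_of_injective _ hinj, card_cube] at h1
  push_cast at h1
  refine h1.trans ?_
  apply mul_le_mul_of_nonneg_left _ hC0
  have hX0 : (0 : ℤ) ≤ sz a * X := mul_nonneg (sz_nonneg a) (Int.natCast_nonneg X)
  have hq := q_nonneg' k st
  set B := box (fun j => P j - (2 ^ k : ℤ) * H) P' with hB
  rcases B.eq_empty_or_nonempty with hBe | ⟨y0, hy0⟩
  · rw [hBe]
    simp only [filter_empty, card_empty, Nat.cast_zero]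
    have h3 : (0 : ℝ) ≤ ((2 * (sz a * X) : ℤ) : ℝ) := by exact_mod_cast (by linarith : (0 : ℤ) ≤ 2 * (sz a * X))
    positivity
  have hside : ∀ j, P' j - (P j - (2 ^ k : ℤ) * H) ≤ X := fun j => by linarith [hP j]
  set Y : Finset ℤ := (Icc (dot a y0 - sz a * X) (dot a y0 + sz a * X)).filter (fun t => surv d k st (L * t + c)) with hY
  have h2 := fib (X := X) (P := fun j => P j - (2 ^ k : ℤ) * H) (P' := P') hside ha Y
  have h3 : (B.filter (fun x => surv d k st (L * dot a x + c))).card ≤ Y.card * X ^ D := by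
    refine le_trans (card_le_card ?_) h2
    intro x hx
    rw [mem_filter] at hx
    rw [mem_filter, hY, mem_filter, mem_Icc]
    refine ⟨hx.1, ?_, hx.2⟩
    have h4 : |dot a (x - y0)| ≤ sz a * X := by
      apply dot_abs
      intro j
      have a1 := mem_box.1 hx.1 j
      have a2 := mem_box.1 hy0 j
      have a3 := hside j
      rw [Pi.sub_apply, abs_le]
      constructor <;> linarith [a1.1, a1.2, a2.1, a2.2]
    rw [dot_sub'] at h4
    have h5 := abs_le.1 h4
    constructor <;> linarith [h5.1, h5.2]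
  have h4 := surv_Icc hdo hL k st c (dot a y0 - sz a * X) (dot a y0 + sz a * X) (by linarith)
  have e1 : dot a y0 + sz a * X - (dot a y0 - sz a * X) = 2 * (sz a * (X : ℤ)) := by ring
  rw [e1] at h4
  have h5 : (((B.filter (fun x => surv d k st (L * dot a x + c))).card : ℕ) : ℝ) ≤ (Y.card : ℝ) * (X : ℝ) ^ D := by exact_mod_cast h3
  refine h5.trans ?_
  exact mul_le_mul_of_nonneg_right h4 (by positivity)

end Pool.Agent.W36.GT
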