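import Pool.Agent.W36.GT.T1

/-! Comparison, for several maps `T_d` at once, of the number of the sifted points at which forms have values in given
invariant sets with the number of all such points. -/

set_option autoImplicit false

namespace Pool.Agent.W36.GT

open Finset Pool.Agent.W36.GK Pool.Agent.H499R2.CO
open Pool.Agent.W36.GS hiding inv_iter surv_of bad bad_of surv_int surv_Icc ub2 bad_sum cmp

/-- membership in an invariant set and coalescence -/
theorem inv_iter {d : ℤ} {S : Set ℤ} (hS : ∀ x, x ∈ S ↔ Tz d x ∈ S) : ∀ (t : ℕ) (x : ℤ), x ∈ S ↔ (Tz d)^[t] x ∈ S := by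
  intro t
  induction t with
  | zero => intro x; rfl
  | succ t ih => intro x; rw [Function.iterate_succ_apply, ← ih, ← hS]

theorem surv_of {d : ℤ} (hdo : d % 2 = 1) {S : Set ℤ} (hS : ∀ x, x ∈ S ↔ Tz d x ∈ S) {k : ℕ} {x u : ℤ}
    (h : ¬ (x ∈ S ↔ x + d * u ∈ S)) : surv d k (0, u) x := by
  by_contra hcon
  obtain ⟨t, -, ht⟩ := coal (d := d) hdo k 0 u x hcon
  have e : (3 : ℤ) ^ 0 * x + d * u = x + d * u := by ring
  rw [e] at ht
  apply h
  rw [inv_iter hS t x, inv_iter hS t (x + d * u), ht]

open Classical in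
/-- the exceptional points of a shift -/
noncomputable def bad {D r : ℕ} (Λ : Fin r → Fin D → ℤ) (c s : Fin r → ℤ) (M N : Fin r → ℕ) (P P' : Fin D → ℤ) (H k : ℕ) (A : ℤ)
    (L : ℕ) (dd u : Fin r → ℤ) : Finset (Fin D → ℤ) :=
  (univ.biUnion fun j : Fin D => (box P (fun j => P' j + H)).filter (fun x => P j + 1 ≤ dot (Pi.single j 1) x ∧ dot (Pi.single j 1) x ≤ P j + H)) ∪
  (univ.biUnion fun j : Fin D => (box P (fun j => P' j + H)).filter (fun x => P' j + 1 ≤ dot (Pi.single j 1) x ∧ dot (Pi.single j 1) x ≤ P' j + H)) ∪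
  (univ.biUnion fun i : Fin r => (box P (fun j => P' j + H)).filter (fun x => (M i - s i * c i) / (L : ℤ) - A * H ≤ dot (s i • Λ i) x ∧
    dot (s i • Λ i) x ≤ (M i - s i * c i) / (L : ℤ) + A * H)) ∪
  (univ.biUnion fun i : Fin r => (box P (fun j => P' j + H)).filter (fun x => (N i - s i * c i) / (L : ℤ) - A * H ≤ dot (s i • Λ i) x ∧
    dot (s i • Λ i) x ≤ (N i - s i * c i) / (L : ℤ) + A * H)) ∪
  (univ.biUnion fun i : Fin r => (box P (fun j => P' j + H)).filter (fun x => surv (dd i) k (0, u i) (L * dot (Λ i) x + c i)))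

theorem bad_of {D r : ℕ} {dd : Fin r → ℤ} (hdo : ∀ i, dd i % 2 = 1) {Λ : Fin r → Fin D → ℤ} {c s : Fin r → ℤ} (hs : ∀ i, s i = 1 ∨ s i = -1)
    {M N : Fin r → ℕ} (hMN : ∀ i, M i ≤ N i) {L : ℕ} (hL : 1 ≤ L)
    {P P' : Fin D → ℤ} {S : Fin r → Set ℤ} (hS : ∀ i x, x ∈ S i ↔ Tz (dd i) x ∈ S i) {H k : ℕ} {A : ℤ} (hA : ∀ i, sz (Λ i) ≤ A)
    {h : Fin D → ℤ} (hh : h ∈ cube D H) {u : Fin r → ℤ} (hu : ∀ i, dd i * u i = -(L * dot (Λ i) h)) (x : Fin D → ℤ)
    (hx : ¬ (x ∈ pts (fun i => (L : ℤ) • Λ i) c s M N P P' S ↔ x - h ∈ pts (fun i => (L : ℤ) • Λ i) c s M N P P' S)) :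
    x ∈ bad Λ c s M N P P' H k A L dd u := by
  classical
  have hL0 : (0 : ℤ) < L := by exact_mod_cast hL
  have hc := mem_cube.1 hh
  have hbox : x ∈ box P (fun j => P' j + H) := by
    rw [mem_box]
    by_cases h1 : x ∈ pts (fun i => (L : ℤ) • Λ i) c s M N P P' S
    · have h2 := mem_box.1 (mem_filter.1 h1).1
      intro j
      have := h2 j
      constructor <;> linarith [this.1, this.2, Int.natCast_nonneg H]
    · have h1' : x - h ∈ pts (fun i => (L : ℤ) • Λ i) c s M N P P' S := by
        by_contra h3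
        exact hx ⟨fun h4 => absurd h4 h1, fun h4 => absurd h4 h3⟩
      have h2 := mem_box.1 (mem_filter.1 h1').1
      intro j
      have h3 := h2 j
      simp only [Pi.sub_apply] at h3
      have h4 := hc j
      constructor <;> linarith [h3.1, h3.2, h4.1, h4.2]
  unfold bad
  simp only [mem_union, mem_biUnion, mem_univ, true_and, mem_filter, dot_single]
  by_cases hb1 : x ∈ box P P'
  · by_cases hb2 : x - h ∈ box P P'
    · -- both in the box
      have h5 : ∃ i, ¬ (((dot ((L : ℤ) • Λ i) x + c i) ∈ S i ∧ (M i : ℤ) < s i * (dot ((L : ℤ) • Λ i) x + c i) ∧ s i * (dot ((L : ℤ) • Λ i) x + c i) ≤ N i) ↔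
          ((dot ((L : ℤ) • Λ i) (x - h) + c i) ∈ S i ∧ (M i : ℤ) < s i * (dot ((L : ℤ) • Λ i) (x - h) + c i) ∧ s i * (dot ((L : ℤ) • Λ i) (x - h) + c i) ≤ N i)) := by
        by_contra h6
        push Not at h6
        apply hx
        unfold pts
        rw [mem_filter, mem_filter]
        simp only [hb1, hb2, true_and]
        exact forall_congr' h6
      obtain ⟨i, h6⟩ := h5
      have h7 : |dot (Λ i) h| ≤ A * H := (dot_cube (Λ i) hh).trans (mul_le_mul_of_nonneg_right (hA i) (Int.natCast_nonneg H))
      rw [dot_sub', dot_smul_left, dot_smul_left] at h6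
      set m := dot (Λ i) h with hm
      set y := dot (Λ i) x with hy
      have e1 : (L : ℤ) * y - L * m + c i = (L * y + c i) - L * m := by ring
      rw [e1] at h6
      set w := (L : ℤ) * y + c i with hw
      -- the window
      have e5 : dot (s i • Λ i) x = s i * y := dot_smul_left _ _ _
      have ew : ∀ (Z t : ℤ), Z < L * t + s i * c i ↔ (Z - s i * c i) / (L : ℤ) < t := by
        intro Z t
        rw [Int.ediv_lt_iff_lt_mul hL0]
        constructor <;> intro h <;> linarith
      have ew' : ∀ (Z t : ℤ), L * t + s i * c i ≤ Z ↔ t ≤ (Z - s i * c i) / (L : ℤ) := by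
        intro Z t
        rw [← not_lt, ew, not_lt]
      have f1 : s i * w = L * (s i * y) + s i * c i := by rw [hw]; ring
      have f2 : s i * (w - L * m) = L * (s i * y - s i * m) + s i * c i := by rw [hw]; ring
      set t := s i * y with ht
      set m' := s i * m with hm'
      have h14 : |m'| ≤ A * H := by
        rw [hm', abs_mul]
        have : |s i| = 1 := by rcases hs i with h | h <;> rw [h] <;> simp
        rw [this, one_mul]; exact h7
      have h15 := abs_le.1 h14
      rw [f1, f2, ew, ew, ew', ew'] at h6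
      by_cases h9 : (((M i : ℤ) - s i * c i) / (L : ℤ) < t ∧ t ≤ ((N i : ℤ) - s i * c i) / (L : ℤ)) ↔
          (((M i : ℤ) - s i * c i) / (L : ℤ) < t - m' ∧ t - m' ≤ ((N i : ℤ) - s i * c i) / (L : ℤ))
      · -- the values are in the same window
        have h10 : ¬ (w ∈ S i ↔ w - L * m ∈ S i) := by
          intro h11
          apply h6
          constructor
          · rintro ⟨a1, a2⟩; exact ⟨h11.1 a1, h9.1 a2⟩
          · rintro ⟨a1, a2⟩; exact ⟨h11.2 a1, h9.2 a2⟩
        right
        refine ⟨i, hbox, surv_of (hdo i) (hS i) ?_⟩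
        rw [hu i, ← hm, ← sub_eq_add_neg]
        exact h10
      · have h13 : ((M i : ℤ) - s i * c i) / (L : ℤ) ≤ ((N i : ℤ) - s i * c i) / (L : ℤ) := by
          apply Int.ediv_le_ediv hL0
          have : (M i : ℤ) ≤ N i := by exact_mod_cast hMN i
          linarith
        set zM := ((M i : ℤ) - s i * c i) / (L : ℤ) with hzM
        set zN := ((N i : ℤ) - s i * c i) / (L : ℤ) with hzN
        have h16 : (zM - A * H ≤ t ∧ t ≤ zM + A * H) ∨ (zN - A * H ≤ t ∧ t ≤ zN + A * H) := by
          by_contra h17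
          apply h9
          push Not at h17
          obtain ⟨b1, b2⟩ := h17
          rcases lt_or_ge t (zM - A * H) with g | g
          · constructor
            · rintro ⟨c1, c2⟩; exfalso; linarith [h15.1, h15.2]
            · rintro ⟨c1, c2⟩; exfalso; linarith [h15.1, h15.2]
          · have g2 := b1 g
            rcases lt_or_ge t (zN - A * H) with g3 | g3
            · constructor
              · rintro ⟨c1, c2⟩; constructor <;> linarith [h15.1, h15.2]
              · rintro ⟨c1, c2⟩; constructor <;> linarith [h15.1, h15.2]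
            · have g4 := b2 g3
              constructor
              · rintro ⟨c1, c2⟩; exfalso; linarith [h15.1, h15.2]
              · rintro ⟨c1, c2⟩; exfalso; linarith [h15.1, h15.2]
        rcases h16 with ⟨a1, a2⟩ | ⟨a1, a2⟩
        · left; left; right
          exact ⟨i, hbox, by rw [e5]; exact a1, by rw [e5]; exact a2⟩
        · left; right
          exact ⟨i, hbox, by rw [e5]; exact a1, by rw [e5]; exact a2⟩
    · -- `x` in the box, `x - h` not
      rw [mem_box] at hb2
      push Not at hb2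
      obtain ⟨j, hj⟩ := hb2
      have h2 := mem_box.1 hb1 j
      have h3 := hc j
      simp only [Pi.sub_apply] at hj
      left; left; left; left
      refine ⟨j, hbox, by linarith [h2.1], ?_⟩
      by_contra h4
      push Not at h4
      have h5 := hj (by linarith [h3.2])
      linarith [h2.2, h3.1]
  · have hb2 : x - h ∈ box P P' := by
      by_contra h3
      apply hx
      unfold pts
      rw [mem_filter, mem_filter]
      exact ⟨fun h4 => absurd h4.1 hb1, fun h4 => absurd h4.1 h3⟩
    rw [mem_box] at hb1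
    push Not at hb1
    obtain ⟨j, hj⟩ := hb1
    have h2 := mem_box.1 hb2 j
    simp only [Pi.sub_apply] at h2
    have h3 := hc j
    have h4 := hj (by linarith [h2.1, h3.1])
    left; left; left; right
    exact ⟨j, hbox, by linarith, by linarith [h2.2, h3.2]⟩

end Pool.Agent.W36.GT
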