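import Pool.Agent.W36.GT.T2

/-! The comparison theorem for the maps `T_d`. -/

set_option autoImplicit false

namespace Pool.Agent.W36.GT

open Finset Pool.Agent.W36.GK Pool.Agent.H499R2.CO
open Pool.Agent.W36.GS hiding inv_iter surv_of bad bad_of surv_int surv_Icc ub2 bad_sum cmp

theorem bad_sum {D r : ℕ} {dd : Fin r → ℤ} (hdo : ∀ i, dd i % 2 = 1) {L : ℕ} (hLo : L % 2 = 1) {H X k : ℕ} {sg : (Fin (D + 1) → ℤ) → ℝ} (hsg : ∀ x, 0 ≤ sg x) {C1 C2 : ℝ} (hC10 : 0 ≤ C1) (hC20 : 0 ≤ C2)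
    (hC1 : ∀ y, ∑ h ∈ cube (D + 1) H, sg (y + h) ≤ C1)
    (hC2 : ∀ y, ∑ h ∈ cube (D + 1) H, sg (y + ((2 ^ k : ℕ) : ℤ) • h) ≤ C2)
    {Λ : Fin r → Fin (D + 1) → ℤ} (h0 : ∀ i, Λ i ≠ 0) (c : Fin r → ℤ) {s : Fin r → ℤ} (hs : ∀ i, s i = 1 ∨ s i = -1) (M N : Fin r → ℕ)
    {P P' : Fin (D + 1) → ℤ} (hH : 1 ≤ H) {A : ℕ} (hA : ∀ i, sz (Λ i) ≤ A)
    (hP : ∀ j, P' j - P j + H + 2 ^ k * H ≤ X) {u : Fin r → ℤ} {q0 : ℝ}
    (hq : ∀ i, q step (0, 0) k (0, u i) ≤ q0) :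
    (H : ℝ) ^ (D + 1) * ∑ x ∈ bad Λ c s M N P P' H k A L dd u, sg x ≤
      C1 * (6 * (D + 1) * H * (X : ℝ) ^ D) + C1 * (2 * r * (4 * A * H + 1) * (X : ℝ) ^ D) +
        C2 * (r * (2 * A * X + 2 ^ k) * q0 * (X : ℝ) ^ D) := by
  classical
  have hHR : (0 : ℝ) < (H : ℝ) ^ (D + 1) := by
    have : (0 : ℝ) < H := by exact_mod_cast hH
    positivity
  have h2k : (1 : ℤ) ≤ 2 ^ k := one_le_pow₀ (by norm_num)
  have hH0 : (0 : ℤ) ≤ H := Int.natCast_nonneg H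
  have hside1 : ∀ j, (fun j => P' j + (H : ℤ)) j - P j + H ≤ X := by
    intro j
    have := hP j
    simp only
    nlinarith
  have hside2 : ∀ j, (fun j => P' j + (H : ℤ)) j - P j + 2 ^ k * H ≤ X := by
    intro j
    have := hP j
    simp only
    linarith
  -- the five families
  have g1 : ∀ j : Fin (D + 1), (H : ℝ) ^ (D + 1) * ∑ x ∈ (box P (fun j => P' j + H)).filter (fun x => P j + 1 ≤ dot (Pi.single j 1) x ∧
      dot (Pi.single j 1) x ≤ P j + H), sg x ≤ C1 * (3 * H * (X : ℝ) ^ D) := by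
    intro j
    have h1 := ub1 hsg hC10 hC1 hside1 (a := Pi.single j 1) (by
      intro h2
      have := congrFun h2 j
      simp at this) (u := P j + 1) (v := P j + H) (by linarith [(by exact_mod_cast hH : (1 : ℤ) ≤ H)])
    rw [sz_single] at h1
    have e : (((P j + H - (P j + 1) + 1 + 2 * (1 * H) : ℤ)) : ℝ) = 3 * H := by push_cast; ring
    rw [e] at h1
    exact h1
  have g2 : ∀ j : Fin (D + 1), (H : ℝ) ^ (D + 1) * ∑ x ∈ (box P (fun j => P' j + H)).filter (fun x => P' j + 1 ≤ dot (Pi.single j 1) x ∧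
      dot (Pi.single j 1) x ≤ P' j + H), sg x ≤ C1 * (3 * H * (X : ℝ) ^ D) := by
    intro j
    have h1 := ub1 hsg hC10 hC1 hside1 (a := Pi.single j 1) (by
      intro h2
      have := congrFun h2 j
      simp at this) (u := P' j + 1) (v := P' j + H) (by linarith [(by exact_mod_cast hH : (1 : ℤ) ≤ H)])
    rw [sz_single] at h1
    have e : (((P' j + H - (P' j + 1) + 1 + 2 * (1 * H) : ℤ)) : ℝ) = 3 * H := by push_cast; ring
    rw [e] at h1
    exact h1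
  have hsΛ : ∀ i, s i • Λ i ≠ 0 := by
    intro i h1
    apply h0 i
    rcases hs i with h | h
    · rw [h, one_smul] at h1; exact h1
    · rw [h] at h1
      have : (-1 : ℤ) • ((-1 : ℤ) • Λ i) = 0 := by rw [h1, smul_zero]
      rw [smul_smul] at this
      simpa using this
  have g34 : ∀ (z : ℤ) (i : Fin r), (H : ℝ) ^ (D + 1) * ∑ x ∈ (box P (fun j => P' j + H)).filter (fun x => z - A * H ≤ dot (s i • Λ i) x ∧
      dot (s i • Λ i) x ≤ z + A * H), sg x ≤ C1 * ((4 * A * H + 1) * (X : ℝ) ^ D) := by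
    intro z i
    have hAH : (0 : ℤ) ≤ A * H := mul_nonneg (Int.natCast_nonneg A) hH0
    have h1 := ub1 hsg hC10 hC1 hside1 (hsΛ i) (u := z - A * H) (v := z + A * H) (by linarith)
    refine h1.trans ?_
    apply mul_le_mul_of_nonneg_left _ hC10
    apply mul_le_mul_of_nonneg_right _ (by positivity)
    rw [sz_smul (hs i)]
    have h2 : z + A * H - (z - A * H) + 1 + 2 * (sz (Λ i) * H) ≤ 4 * A * H + 1 := by
      have : sz (Λ i) * (H : ℤ) ≤ A * H := mul_le_mul_of_nonneg_right (hA i) hH0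
      linarith
    exact_mod_cast h2
  have g5 : ∀ i : Fin r, (H : ℝ) ^ (D + 1) * ∑ x ∈ (box P (fun j => P' j + H)).filter (fun x => surv (dd i) k (0, u i) (L * dot (Λ i) x + c i)), sg x ≤
      C2 * ((2 * A * X + 2 ^ k) * q0 * (X : ℝ) ^ D) := by
    intro i
    have h1 := ub2 (hdo i) (L := (L : ℤ)) (by omega) hsg hC20 hC2 hside2 (h0 i) (c i) (0, u i)
    refine h1.trans ?_
    apply mul_le_mul_of_nonneg_left _ hC20
    apply mul_le_mul_of_nonneg_right _ (by positivity)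
    apply mul_le_mul _ (hq i) (q_nonneg' _ _) (by positivity)
    have h2 : 2 * (sz (Λ i) * (X : ℤ)) ≤ 2 * A * X := by
      have : sz (Λ i) * (X : ℤ) ≤ A * X := mul_le_mul_of_nonneg_right (hA i) (Int.natCast_nonneg X)
      linarith
    have h3 : ((2 * (sz (Λ i) * (X : ℤ)) : ℤ) : ℝ) ≤ 2 * A * X := by exact_mod_cast h2
    linarith
  -- union
  unfold bad
  have u1 := sum_un_le hsg ((univ.biUnion fun j : Fin (D + 1) => (box P (fun j => P' j + H)).filter (fun x => P j + 1 ≤ dot (Pi.single j 1) x ∧ dot (Pi.single j 1) x ≤ P j + H)) ∪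
    (univ.biUnion fun j : Fin (D + 1) => (box P (fun j => P' j + H)).filter (fun x => P' j + 1 ≤ dot (Pi.single j 1) x ∧ dot (Pi.single j 1) x ≤ P' j + H)) ∪
    (univ.biUnion fun i : Fin r => (box P (fun j => P' j + H)).filter (fun x => (M i - s i * c i) / (L : ℤ) - (A : ℤ) * H ≤ dot (s i • Λ i) x ∧
      dot (s i • Λ i) x ≤ (M i - s i * c i) / (L : ℤ) + (A : ℤ) * H)) ∪
    (univ.biUnion fun i : Fin r => (box P (fun j => P' j + H)).filter (fun x => (N i - s i * c i) / (L : ℤ) - (A : ℤ) * H ≤ dot (s i • Λ i) x ∧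
      dot (s i • Λ i) x ≤ (N i - s i * c i) / (L : ℤ) + (A : ℤ) * H)))
    (univ.biUnion fun i : Fin r => (box P (fun j => P' j + H)).filter (fun x => surv (dd i) k (0, u i) (L * dot (Λ i) x + c i)))
  have u2 := sum_un_le hsg ((univ.biUnion fun j : Fin (D + 1) => (box P (fun j => P' j + H)).filter (fun x => P j + 1 ≤ dot (Pi.single j 1) x ∧ dot (Pi.single j 1) x ≤ P j + H)) ∪
    (univ.biUnion fun j : Fin (D + 1) => (box P (fun j => P' j + H)).filter (fun x => P' j + 1 ≤ dot (Pi.single j 1) x ∧ dot (Pi.single j 1) x ≤ P' j + H)) ∪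
    (univ.biUnion fun i : Fin r => (box P (fun j => P' j + H)).filter (fun x => (M i - s i * c i) / (L : ℤ) - (A : ℤ) * H ≤ dot (s i • Λ i) x ∧
      dot (s i • Λ i) x ≤ (M i - s i * c i) / (L : ℤ) + (A : ℤ) * H)))
    (univ.biUnion fun i : Fin r => (box P (fun j => P' j + H)).filter (fun x => (N i - s i * c i) / (L : ℤ) - (A : ℤ) * H ≤ dot (s i • Λ i) x ∧
      dot (s i • Λ i) x ≤ (N i - s i * c i) / (L : ℤ) + (A : ℤ) * H))
  have u3 := sum_un_le hsg ((univ.biUnion fun j : Fin (D + 1) => (box P (fun j => P' j + H)).filter (fun x => P j + 1 ≤ dot (Pi.single j 1) x ∧ dot (Pi.single j 1) x ≤ P j + H)) ∪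
    (univ.biUnion fun j : Fin (D + 1) => (box P (fun j => P' j + H)).filter (fun x => P' j + 1 ≤ dot (Pi.single j 1) x ∧ dot (Pi.single j 1) x ≤ P' j + H)))
    (univ.biUnion fun i : Fin r => (box P (fun j => P' j + H)).filter (fun x => (M i - s i * c i) / (L : ℤ) - (A : ℤ) * H ≤ dot (s i • Λ i) x ∧
      dot (s i • Λ i) x ≤ (M i - s i * c i) / (L : ℤ) + (A : ℤ) * H))
  have u4 := sum_un_le hsg (univ.biUnion fun j : Fin (D + 1) => (box P (fun j => P' j + H)).filter (fun x => P j + 1 ≤ dot (Pi.single j 1) x ∧ dot (Pi.single j 1) x ≤ P j + H))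
    (univ.biUnion fun j : Fin (D + 1) => (box P (fun j => P' j + H)).filter (fun x => P' j + 1 ≤ dot (Pi.single j 1) x ∧ dot (Pi.single j 1) x ≤ P' j + H))
  have b1 := sum_bi_le hsg univ (fun j : Fin (D + 1) => (box P (fun j => P' j + H)).filter (fun x => P j + 1 ≤ dot (Pi.single j 1) x ∧ dot (Pi.single j 1) x ≤ P j + H))
  have b2 := sum_bi_le hsg univ (fun j : Fin (D + 1) => (box P (fun j => P' j + H)).filter (fun x => P' j + 1 ≤ dot (Pi.single j 1) x ∧ dot (Pi.single j 1) x ≤ P' j + H))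
  have b3 := sum_bi_le hsg univ (fun i : Fin r => (box P (fun j => P' j + H)).filter (fun x => (M i - s i * c i) / (L : ℤ) - (A : ℤ) * H ≤ dot (s i • Λ i) x ∧
      dot (s i • Λ i) x ≤ (M i - s i * c i) / (L : ℤ) + (A : ℤ) * H))
  have b4 := sum_bi_le hsg univ (fun i : Fin r => (box P (fun j => P' j + H)).filter (fun x => (N i - s i * c i) / (L : ℤ) - (A : ℤ) * H ≤ dot (s i • Λ i) x ∧
      dot (s i • Λ i) x ≤ (N i - s i * c i) / (L : ℤ) + (A : ℤ) * H))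
  have b5 := sum_bi_le hsg univ (fun i : Fin r => (box P (fun j => P' j + H)).filter (fun x => surv (dd i) k (0, u i) (L * dot (Λ i) x + c i)))
  have c1 : (H : ℝ) ^ (D + 1) * ∑ j : Fin (D + 1), ∑ x ∈ (box P (fun j => P' j + H)).filter (fun x => P j + 1 ≤ dot (Pi.single j 1) x ∧ dot (Pi.single j 1) x ≤ P j + H), sg x
      ≤ (D + 1) * (C1 * (3 * H * (X : ℝ) ^ D)) := by
    rw [mul_sum]
    refine (sum_le_sum fun j _ => g1 j).trans (le_of_eq ?_)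
    rw [sum_const, nsmul_eq_mul, card_univ, Fintype.card_fin]; push_cast; ring
  have c2 : (H : ℝ) ^ (D + 1) * ∑ j : Fin (D + 1), ∑ x ∈ (box P (fun j => P' j + H)).filter (fun x => P' j + 1 ≤ dot (Pi.single j 1) x ∧ dot (Pi.single j 1) x ≤ P' j + H), sg x
      ≤ (D + 1) * (C1 * (3 * H * (X : ℝ) ^ D)) := by
    rw [mul_sum]
    refine (sum_le_sum fun j _ => g2 j).trans (le_of_eq ?_)
    rw [sum_const, nsmul_eq_mul, card_univ, Fintype.card_fin]; push_cast; ring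
  have c3 : (H : ℝ) ^ (D + 1) * ∑ i : Fin r, ∑ x ∈ (box P (fun j => P' j + H)).filter (fun x => (M i - s i * c i) / (L : ℤ) - (A : ℤ) * H ≤ dot (s i • Λ i) x ∧
      dot (s i • Λ i) x ≤ (M i - s i * c i) / (L : ℤ) + (A : ℤ) * H), sg x ≤ r * (C1 * ((4 * A * H + 1) * (X : ℝ) ^ D)) := by
    rw [mul_sum]
    refine (sum_le_sum fun i _ => g34 ((M i - s i * c i) / (L : ℤ)) i).trans (le_of_eq ?_)
    rw [sum_const, nsmul_eq_mul, card_univ, Fintype.card_fin]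
  have c4 : (H : ℝ) ^ (D + 1) * ∑ i : Fin r, ∑ x ∈ (box P (fun j => P' j + H)).filter (fun x => (N i - s i * c i) / (L : ℤ) - (A : ℤ) * H ≤ dot (s i • Λ i) x ∧
      dot (s i • Λ i) x ≤ (N i - s i * c i) / (L : ℤ) + (A : ℤ) * H), sg x ≤ r * (C1 * ((4 * A * H + 1) * (X : ℝ) ^ D)) := by
    rw [mul_sum]
    refine (sum_le_sum fun i _ => g34 ((N i - s i * c i) / (L : ℤ)) i).trans (le_of_eq ?_)
    rw [sum_const, nsmul_eq_mul, card_univ, Fintype.card_fin]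
  have c5 : (H : ℝ) ^ (D + 1) * ∑ i : Fin r, ∑ x ∈ (box P (fun j => P' j + H)).filter (fun x => surv (dd i) k (0, u i) (L * dot (Λ i) x + c i)), sg x
      ≤ r * (C2 * ((2 * A * X + 2 ^ k) * q0 * (X : ℝ) ^ D)) := by
    rw [mul_sum]
    refine (sum_le_sum fun i _ => g5 i).trans (le_of_eq ?_)
    rw [sum_const, nsmul_eq_mul, card_univ, Fintype.card_fin]
  have d1 := mul_le_mul_of_nonneg_left b1 hHR.le
  have d2 := mul_le_mul_of_nonneg_left b2 hHR.le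
  have d3 := mul_le_mul_of_nonneg_left b3 hHR.le
  have d4 := mul_le_mul_of_nonneg_left b4 hHR.le
  have d5 := mul_le_mul_of_nonneg_left b5 hHR.le
  have e1 := mul_le_mul_of_nonneg_left u1 hHR.le
  have e2 := mul_le_mul_of_nonneg_left u2 hHR.le
  have e3 := mul_le_mul_of_nonneg_left u3 hHR.le
  have e4 := mul_le_mul_of_nonneg_left u4 hHR.le
  rw [mul_add] at e1 e2 e3 e4
  linarith

/-- THE COMPARISON -/
theorem cmp {D r : ℕ} {dd : Fin r → ℤ} (hdo : ∀ i, dd i % 2 = 1) {L : ℕ} (hL : 1 ≤ L) (hLo : L % 2 = 1) {H X k : ℕ} {sg : (Fin (D + 1) → ℤ) → ℝ} (hsg : ∀ x, 0 ≤ sg x) {V ε1 c2 : ℝ} (hV : 0 ≤ V) (hε1 : 0 ≤ ε1) (hε11 : ε1 ≤ 1) (hc2 : 0 ≤ c2)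
    (hF1 : ∀ y, |∑ h ∈ cube (D + 1) H, sg (y + h) - (H : ℝ) ^ (D + 1) * V| ≤ ε1 * ((H : ℝ) ^ (D + 1) * V))
    (hF2 : ∀ y, ∑ h ∈ cube (D + 1) H, sg (y + ((2 ^ k : ℕ) : ℤ) • h) ≤ c2 * ((H : ℝ) ^ (D + 1) * V))
    {Λ : Fin r → Fin (D + 1) → ℤ} (h0 : ∀ i, Λ i ≠ 0) (c : Fin r → ℤ) {s : Fin r → ℤ} (hs : ∀ i, s i = 1 ∨ s i = -1) {M N : Fin r → ℕ}
    (hMN : ∀ i, M i ≤ N i) {S : Fin r → Set ℤ} (hS : ∀ i x, x ∈ S i ↔ Tz (dd i) x ∈ S i)
    {P P' : Fin (D + 1) → ℤ} (hH : 1 ≤ H) {A : ℕ} (hA : ∀ i, sz (Λ i) ≤ A)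
    (hP : ∀ j, P' j - P j + H + 2 ^ k * H ≤ X) {q0 : ℝ}
    {u : (Fin (D + 1) → ℤ) → Fin r → ℤ} (hu : ∀ h ∈ cube (D + 1) H, ∀ i, dd i * u h i = -(L * dot (Λ i) h))
    (hq : ∀ h ∈ cube (D + 1) H, ∀ i, q step (0, 0) k (0, u h i) ≤ q0) :
    |∑ x ∈ pts (fun i => (L : ℤ) • Λ i) c s M N P P' S, sg x - V * (pts (fun i => (L : ℤ) • Λ i) c s M N P P' S).card| ≤
      V * (ε1 * (pts (fun i => (L : ℤ) • Λ i) c s M N P P' S).card + 12 * (D + 1) * H * (X : ℝ) ^ D + 4 * r * (4 * A * H + 1) * (X : ℝ) ^ D +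
        c2 * r * (2 * A * X + 2 ^ k) * q0 * (X : ℝ) ^ D) := by
  classical
  have hHR : (0 : ℝ) < (H : ℝ) ^ (D + 1) := by
    have : (0 : ℝ) < H := by exact_mod_cast hH
    positivity
  have hHV : 0 ≤ (H : ℝ) ^ (D + 1) * V := mul_nonneg hHR.le hV
  have hC1 : ∀ y, ∑ h ∈ cube (D + 1) H, sg (y + h) ≤ 2 * ((H : ℝ) ^ (D + 1) * V) := by
    intro y
    have := (abs_le.1 (hF1 y)).2
    have h1 : ε1 * ((H : ℝ) ^ (D + 1) * V) ≤ 1 * ((H : ℝ) ^ (D + 1) * V) := mul_le_mul_of_nonneg_right hε11 hHV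
    linarith
  have hErr : ∀ h ∈ cube (D + 1) H, |∑ x ∈ pts (fun i => (L : ℤ) • Λ i) c s M N P P' S, sg x - ∑ x ∈ pts (fun i => (L : ℤ) • Λ i) c s M N P P' S, sg (x + h)| ≤
      V * (12 * (D + 1) * H * (X : ℝ) ^ D + 4 * r * (4 * A * H + 1) * (X : ℝ) ^ D + c2 * r * (2 * A * X + 2 ^ k) * q0 * (X : ℝ) ^ D) := by
    intro h hh
    refine (shift_bad hsg _ (bad Λ c s M N P P' H k A L dd (u h)) h (fun x hx => bad_of hdo hs hMN hL hS hA hh (hu h hh) x hx)).trans ?_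
    have h1 := bad_sum hdo hLo hsg (by positivity) (by positivity) hC1 hF2 h0 c hs M N hH hA hP (hq h hh)
    have e1 : 2 * ((H : ℝ) ^ (D + 1) * V) * (6 * (D + 1) * H * (X : ℝ) ^ D) + 2 * ((H : ℝ) ^ (D + 1) * V) * (2 * r * (4 * A * H + 1) * (X : ℝ) ^ D) +
        c2 * ((H : ℝ) ^ (D + 1) * V) * (r * (2 * A * X + 2 ^ k) * q0 * (X : ℝ) ^ D) = (H : ℝ) ^ (D + 1) * (V * (12 * (D + 1) * H * (X : ℝ) ^ D +
        4 * r * (4 * A * H + 1) * (X : ℝ) ^ D + c2 * r * (2 * A * X + 2 ^ k) * q0 * (X : ℝ) ^ D)) := by ring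
    rw [e1] at h1
    exact le_of_mul_le_mul_left h1 hHR
  have h2 := avg_main (cube (D + 1) H) (pts (fun i => (L : ℤ) • Λ i) c s M N P P' S) hF1 hErr
  rw [card_cube] at h2
  push_cast at h2
  have e2 : (H : ℝ) ^ (D + 1) * ∑ x ∈ pts (fun i => (L : ℤ) • Λ i) c s M N P P' S, sg x - (H : ℝ) ^ (D + 1) * V * (pts (fun i => (L : ℤ) • Λ i) c s M N P P' S).card =
      (H : ℝ) ^ (D + 1) * (∑ x ∈ pts (fun i => (L : ℤ) • Λ i) c s M N P P' S, sg x - V * (pts (fun i => (L : ℤ) • Λ i) c s M N P P' S).card) := by ring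
  rw [e2, abs_mul, abs_of_pos hHR] at h2
  apply le_of_mul_le_mul_left _ hHR
  refine h2.trans (le_of_eq ?_)
  ring

end Pool.Agent.W36.GT
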