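import Pool.Agent.W36.GT.T3

/-! The comparison theorem for several maps `T_d` in residue classes, with parameters, uniformly in the maps. -/

set_option autoImplicit false

namespace Pool.Agent.W36.GT

open Finset Pool.Agent.W36.GK Pool.Agent.H499R2.CO Pool.Agent.W41 Pool.Agent.H499R2.ND
open Pool.Agent.W36.GS hiding inv_iter surv_of bad bad_of surv_int surv_Icc ub2 bad_sum cmp cmp_parq

/-- THE COMPARISON in residue classes, with parameters -/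
theorem cmp_parq {D r κ : ℕ} {Λ : Fin r → Fin (D + 1) → ℤ} (h0 : ∀ i, Λ i ≠ 0) {s : Fin r → ℤ} (hs : ∀ i, s i = 1 ∨ s i = -1)
    {ε : ℝ} (hε : 0 < ε) : ∃ θ : ℝ, 0 < θ ∧ ∃ N0 : ℕ, ∀ N : ℕ, N0 ≤ N → ∀ Q : Finset ℕ, (∀ p ∈ Q, p.Prime ∧ (p : ℝ) ≤ (N : ℝ) ^ θ) →
    ∀ Ω : (p : ℕ) → Set (Fin (D + 1) → ZMod p), (∀ p ∈ Q, (Ω p).ncard * p ≤ κ * p ^ (D + 1)) →
    ∀ qq : ℕ, qq % 2 = 1 → (qq : ℝ) ≤ (N : ℝ) ^ θ → (∀ p ∈ Q, ¬ p ∣ qq) → ∀ ρ : Fin (D + 1) → ZMod qq,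
    ∀ L : ℕ, L % 2 = 1 → (L : ℝ) ≤ (N : ℝ) ^ θ → ∀ dd : Fin r → ℤ, (∀ i, dd i ∣ (L : ℤ)) →
    ∀ S : Fin r → Set ℤ, (∀ i x, x ∈ S i ↔ Tz (dd i) x ∈ S i) → ∀ c : Fin r → ℤ, ∀ M N' : Fin r → ℕ, (∀ i, M i ≤ N' i) →
    ∀ P P' : Fin (D + 1) → ℤ, (∀ j, P' j - P j ≤ N) →
    |∑ x ∈ pts (fun i => (L : ℤ) • Λ i) c s M N' P P' S, sgq qq ρ Q Ω x - VV Q Ω / (qq : ℝ) ^ (D + 1) * (pts (fun i => (L : ℤ) • Λ i) c s M N' P P' S).card| ≤
      ε / 3 * (VV Q Ω / (qq : ℝ) ^ (D + 1)) * (N : ℝ) ^ (D + 1) := by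
  -- the constants
  obtain ⟨A, hA1, hA⟩ : ∃ A : ℕ, 1 ≤ A ∧ ∀ i, sz (Λ i) ≤ A := by
    refine ⟨(∑ i, sz (Λ i)).toNat + 1, by omega, fun i => ?_⟩
    have h1 : sz (Λ i) ≤ ∑ i, sz (Λ i) := single_le_sum (f := fun i => sz (Λ i)) (fun i _ => sz_nonneg _) (mem_univ i)
    push_cast
    have := Int.self_le_toNat (∑ i, sz (Λ i))
    linarith
  have hA1R : (1 : ℝ) ≤ A := by exact_mod_cast hA1
  obtain ⟨c2, hc2⟩ : ∃ c2 : ℝ, c2 = 2 * 2 ^ (D + 1) := ⟨_, rfl⟩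
  have hc20 : 0 < c2 := by rw [hc2]; positivity
  obtain ⟨ε1, hε1⟩ : ∃ ε1 : ℝ, ε1 = min (ε / 12) 1 := ⟨_, rfl⟩
  have hε10 : 0 < ε1 := by rw [hε1]; exact lt_min (by positivity) one_pos
  obtain ⟨q0, hq0⟩ : ∃ q0 : ℝ, q0 = min (ε / (60 * c2 * (r + 1) * A * 2 ^ D)) 1 := ⟨_, rfl⟩
  have hq00 : 0 < q0 := by rw [hq0]; exact lt_min (by positivity) one_pos
  obtain ⟨θ0, hθ0, k0, hqq⟩ := q_quant hq00 (by rw [hq0]; exact min_le_right _ _)
  obtain ⟨K1, y1, hK1, hy1, hF1⟩ := fldq (D + 1) κ hε10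
  obtain ⟨K2, y2, hK2, hy2, hF2⟩ := fldq (D + 1) κ (show (0 : ℝ) < 1 by norm_num)
  obtain ⟨K, hK⟩ : ∃ K, K = K1 + K2 + 2 := ⟨_, rfl⟩
  obtain ⟨W, hW2, hW⟩ : ∃ W : ℕ, 2 ≤ W ∧ 2 / θ0 ≤ W := by
    obtain ⟨W, hW⟩ := exists_large (2 / θ0)
    exact ⟨W + 2, by omega, hW.trans (by push_cast; linarith)⟩
  obtain ⟨B, hB⟩ := exists_large (240 * (r + 1) * (D + 1) * A * 2 ^ D / ε)
  have hWK : 1 ≤ W * K := Nat.mul_pos (by omega) (by omega)
  have hWKR : (1 : ℝ) ≤ (W : ℝ) * K := by exact_mod_cast hWK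
  have hWR : (2 : ℝ) ≤ W := by exact_mod_cast hW2
  obtain ⟨km, hkm⟩ : ∃ km : ℕ, km = k0 + 2 * (W * K) + (y1 + y2) * (W * K) + A * W + B + 4 := ⟨_, rfl⟩
  refine ⟨1 / (8 * (W * K)), by positivity, 4 ^ km, fun N hN Q hQ Ω hΩ qq hqo hqN hQq ρ L hLo hLN dd hdL S hS c M N' hMN P P' hP => ?_⟩
  have hQp : ∀ p ∈ Q, p.Prime := fun p hp => (hQ p hp).1
  have hL1 : 1 ≤ L := by omega
  have hdo : ∀ i, dd i % 2 = 1 := by
    intro i
    obtain ⟨t, ht⟩ := hdL i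
    rcases Int.emod_two_eq_zero_or_one (dd i) with h | h
    · exfalso
      have h2 : (2 : ℤ) ∣ (L : ℤ) := by rw [ht]; exact Dvd.dvd.mul_right (Int.dvd_of_emod_eq_zero h) _
      omega
    · exact h
  have hu : ∀ (h : Fin (D + 1) → ℤ) (i : Fin r), dd i * (-((L : ℤ) / dd i * dot (Λ i) h)) = -(L * dot (Λ i) h) := by
    intro h i
    have h1 : dd i * ((L : ℤ) / dd i) = L := Int.mul_ediv_cancel' (hdL i)
    calc dd i * (-((L : ℤ) / dd i * dot (Λ i) h)) = -((dd i * ((L : ℤ) / dd i)) * dot (Λ i) h) := by ring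
      _ = _ := by rw [h1]
  by_cases hV0 : VV Q Ω = 0
  · rw [hV0]
    have : ∑ x ∈ pts (fun i => (L : ℤ) • Λ i) c s M N' P P' S, sgq qq ρ Q Ω x = 0 := sum_eq_zero fun x _ => by
      unfold sgq
      rw [VV_univ hQp hV0 x]
      simp
    rw [this]; simp
  have hq1 : 1 ≤ qq := by omega
  have hN1 : 1 ≤ N := le_trans (Nat.one_le_pow _ _ (by norm_num)) hN
  have hNR : (0 : ℝ) < N := by exact_mod_cast hN1
  -- the exponent
  obtain ⟨k, hk⟩ : ∃ k, k = Nat.log 4 N := ⟨_, rfl⟩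
  have hkN : 4 ^ k ≤ N := by rw [hk]; exact Nat.pow_log_le_self 4 (by omega)
  have hNk : N < 4 ^ (k + 1) := by rw [hk]; exact Nat.lt_pow_succ_log_self (by norm_num) N
  have hkk : km ≤ k := by rw [hk]; exact (Nat.le_log_iff_pow_le (by norm_num) (by omega)).2 hN
  obtain ⟨m, hm⟩ : ∃ m, m = k / (W * K) := ⟨_, rfl⟩
  have hmk : W * K * m ≤ k := by rw [hm]; exact Nat.mul_div_le k (W * K)
  have hmk2 : k < W * K * (m + 1) := by rw [hm]; exact Nat.lt_mul_div_succ k (by omega)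
  have hmy : y1 + y2 ≤ m := by
    rw [hm, Nat.le_div_iff_mul_le (by omega)]
    have : (y1 + y2) * (W * K) ≤ km := by rw [hkm]; omega
    omega
  have hm2 : 2 ≤ m := by
    rw [hm, Nat.le_div_iff_mul_le (by omega)]
    omega
  obtain ⟨y, hy⟩ : ∃ y : ℕ, y = 2 ^ m := ⟨_, rfl⟩
  obtain ⟨H0, hH0⟩ : ∃ H0 : ℕ, H0 = 2 ^ ((K1 + K2) * m) := ⟨_, rfl⟩
  obtain ⟨H, hH⟩ : ∃ H : ℕ, H = qq * H0 := ⟨_, rfl⟩
  have hyy : y1 + y2 ≤ y := by rw [hy]; exact hmy.trans (Nat.lt_two_pow_self).le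
  have hy1' : 1 ≤ y := by rw [hy]; exact Nat.one_le_two_pow
  have hyH : y ^ (K1 + K2) = H0 := by rw [hy, hH0, ← pow_mul, mul_comm]
  have hyH1 : y ^ K1 ≤ H0 := by rw [← hyH]; exact Nat.pow_le_pow_right hy1' (by omega)
  have hyH2 : y ^ K2 ≤ H0 := by rw [← hyH]; exact Nat.pow_le_pow_right hy1' (by omega)
  have hH01 : 1 ≤ H0 := by rw [hH0]; exact Nat.one_le_two_pow
  have hH1 : 1 ≤ H := by rw [hH]; exact Nat.mul_pos hq1 hH01
  have hkR : (k : ℝ) < W * K * (m + 1) := by exact_mod_cast hmk2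
  have hkR' : (W : ℝ) * K * m ≤ k := by exact_mod_cast hmk
  have hmR : (2 : ℝ) ≤ m := by exact_mod_cast hm2
  have h2 : (N : ℝ) ^ (1 / (8 * ((W : ℝ) * K))) ≤ (y : ℝ) := by
      have h3 : (N : ℝ) ≤ (2 : ℝ) ^ (2 * ((k : ℝ) + 1)) := by
        have h4 : (N : ℝ) ≤ (4 : ℝ) ^ (k + 1) := by exact_mod_cast hNk.le
        refine h4.trans (le_of_eq ?_)
        rw [show (4 : ℝ) = 2 ^ 2 by norm_num, ← pow_mul, ← Real.rpow_natCast]
        congr 1; push_cast; ring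
      calc (N : ℝ) ^ (1 / (8 * ((W : ℝ) * K))) ≤ ((2 : ℝ) ^ (2 * ((k : ℝ) + 1))) ^ (1 / (8 * ((W : ℝ) * K))) :=
            Real.rpow_le_rpow hNR.le h3 (by positivity)
        _ = (2 : ℝ) ^ ((2 * ((k : ℝ) + 1)) * (1 / (8 * ((W : ℝ) * K)))) := by rw [← Real.rpow_mul (by norm_num)]
        _ ≤ (2 : ℝ) ^ (m : ℝ) := by
            apply rpow_nat_le
            rw [mul_one_div, div_le_iff₀ (by positivity)]
            nlinarith
        _ = (y : ℝ) := by rw [hy, Real.rpow_natCast]; push_cast; rfl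
  -- primes are at most `y`
  have hQy : ∀ p ∈ Q, p.Prime ∧ p ≤ y := by
    intro p hp
    refine ⟨hQp p hp, ?_⟩
    exact_mod_cast ((hQ p hp).2).trans h2
  have hqy : qq ≤ y := by exact_mod_cast hqN.trans h2
  have hLy : L ≤ y := by exact_mod_cast hLN.trans h2
  have hLHK : L * H ≤ 2 ^ (K * m) := by
    rw [hH, hH0, hK]
    calc L * (qq * 2 ^ ((K1 + K2) * m)) ≤ 2 ^ m * (2 ^ m * 2 ^ ((K1 + K2) * m)) :=
          Nat.mul_le_mul (by rw [← hy]; exact hLy) (Nat.mul_le_mul_right _ (by rw [← hy]; exact hqy))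
      _ = 2 ^ ((K1 + K2 + 2) * m) := by rw [← pow_add, ← pow_add]; congr 1; ring
  have hHK : H ≤ 2 ^ (K * m) := le_trans (Nat.le_mul_of_pos_left _ (by omega)) hLHK
  -- shifts
  have hAH : (A : ℝ) * ((L * H : ℕ) : ℝ) ≤ (2 : ℝ) ^ (θ0 * k) := by
    have h1 : (A : ℝ) ≤ 2 ^ (A : ℝ) := by
      rw [Real.rpow_natCast]
      exact_mod_cast (Nat.lt_two_pow_self (n := A)).le
    have h2 : ((L * H : ℕ) : ℝ) ≤ 2 ^ ((K * m : ℕ) : ℝ) := by rw [Real.rpow_natCast]; exact_mod_cast hLHK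
    have h3 : (A : ℝ) ≤ θ0 / 2 * k := by
      have : A * W ≤ k := by omega
      have h4 : (A : ℝ) * W ≤ k := by exact_mod_cast this
      rw [div_le_iff₀ hθ0] at hW
      nlinarith
    have h4 : ((K * m : ℕ) : ℝ) ≤ θ0 / 2 * k := by
      have h5 : (W : ℝ) * ((K * m : ℕ) : ℝ) ≤ k := by push_cast; linarith
      have h6 : (0 : ℝ) ≤ ((K * m : ℕ) : ℝ) := Nat.cast_nonneg _
      rw [div_le_iff₀ hθ0] at hW
      nlinarith
    calc (A : ℝ) * ((L * H : ℕ) : ℝ) ≤ 2 ^ (A : ℝ) * 2 ^ ((K * m : ℕ) : ℝ) := by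
          exact mul_le_mul h1 h2 (Nat.cast_nonneg _) (by positivity)
      _ = 2 ^ ((A : ℝ) + ((K * m : ℕ) : ℝ)) := by rw [← Real.rpow_add (by norm_num)]
      _ ≤ _ := rpow_nat_le (by linarith)
  have hq : ∀ h ∈ cube (D + 1) H, ∀ i, q step (0, 0) k (0, -((L : ℤ) / dd i * dot (Λ i) h)) ≤ q0 := by
    intro h hh i
    apply hqq k (by omega)
    refine le_trans ?_ hAH
    have h1 := (dot_cube (Λ i) hh).trans (mul_le_mul_of_nonneg_right (hA i) (Int.natCast_nonneg H))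
    have h2 := hu h i
    have h3 : |dd i| * |-((L : ℤ) / dd i * dot (Λ i) h)| = L * |dot (Λ i) h| := by
      rw [← abs_mul, h2, abs_neg, abs_mul, abs_of_nonneg (Int.natCast_nonneg L)]
    have h4 : (1 : ℤ) ≤ |dd i| := by
      have : dd i ≠ 0 := by have := hdo i; omega
      exact Int.one_le_abs this
    have h5 : |-((L : ℤ) / dd i * dot (Λ i) h)| ≤ L * |dot (Λ i) h| := by
      rw [← h3]
      exact le_mul_of_one_le_left (abs_nonneg _) h4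
    have h6 : |-((L : ℤ) / dd i * dot (Λ i) h)| ≤ A * ((L * H : ℕ) : ℤ) := by
      refine h5.trans ?_
      calc (L : ℤ) * |dot (Λ i) h| ≤ L * (A * H) := mul_le_mul_of_nonneg_left h1 (Int.natCast_nonneg L)
        _ = _ := by push_cast; ring
    exact_mod_cast h6
  -- sizes
  have hKm : 2 * (K * m) ≤ k := by nlinarith
  have hside : 2 ^ k * H + H ≤ N := by
    have h1 : 2 ^ k * H + H ≤ 2 * (2 ^ k * H) := by
      have : 1 ≤ 2 ^ k := Nat.one_le_two_pow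
      nlinarith
    refine h1.trans (le_trans ?_ hkN)
    have h2 : 2 * (2 ^ k * H) ≤ 2 ^ (1 + k + K * m) := by
      rw [pow_add, pow_add, pow_one, mul_assoc]
      exact Nat.mul_le_mul_left _ (Nat.mul_le_mul_left _ hHK)
    refine h2.trans ?_
    rw [show (4 : ℕ) = 2 ^ 2 by norm_num, ← pow_mul]
    apply Nat.pow_le_pow_right (by norm_num)
    omega
  have hPX : ∀ j, P' j - P j + H + 2 ^ k * H ≤ ((2 * N : ℕ) : ℤ) := by
    intro j
    have h1 := hP j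
    have h2 : (2 : ℤ) ^ k * H + H ≤ N := by exact_mod_cast hside
    push_cast
    linarith
  have hkN2 : 2 ^ k ≤ N := by
    have : 2 ^ k * 1 ≤ 2 ^ k * H := Nat.mul_le_mul_left _ hH1
    omega
  have hHε : (H : ℝ) * (240 * (r + 1) * (D + 1) * A * 2 ^ D) ≤ ε * N := by
    have h1 : 240 * (r + 1) * (D + 1) * A * 2 ^ D ≤ ε * (B : ℝ) := by
      rw [div_le_iff₀ hε] at hB; linarith
    have h2 : (B : ℝ) * H ≤ N := by
      have h3 : B ≤ 2 ^ k := le_trans (by omega : B ≤ k) (Nat.lt_two_pow_self).le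
      have h4 : B * H ≤ N := by
        calc B * H ≤ 2 ^ k * H := Nat.mul_le_mul_right _ h3
          _ ≤ N := by omega
      exact_mod_cast h4
    calc (H : ℝ) * (240 * (r + 1) * (D + 1) * A * 2 ^ D) ≤ H * (ε * B) := mul_le_mul_of_nonneg_left h1 (Nat.cast_nonneg _)
      _ = ε * (B * H) := by ring
      _ ≤ ε * N := mul_le_mul_of_nonneg_left h2 hε.le
  have hVn' := VV_nonneg hQp Ω
  have hqR : (0 : ℝ) < qq := by exact_mod_cast hq1
  obtain ⟨V, hV⟩ : ∃ V : ℝ, V = VV Q Ω / (qq : ℝ) ^ (D + 1) := ⟨_, rfl⟩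
  have hVn : 0 ≤ V := by rw [hV]; positivity
  have hHV : (H : ℝ) ^ (D + 1) * V = (H0 : ℝ) ^ (D + 1) * VV Q Ω := by
    rw [hV, hH]; push_cast; rw [mul_pow]; field_simp
  rw [← hV]
  have key := cmp hdo hL1 hLo (X := 2 * N) (k := k) (H := H) (sg := sgq qq ρ Q Ω) (sgq_nonneg qq ρ Q Ω) (V := V) (ε1 := ε1) (c2 := c2) hVn hε10.le
    (by rw [hε1]; exact min_le_right _ _) hc20.le (by
      intro x
      have h1 := hF1 y (by omega) H0 hyH1 Q hQy Ω hΩ 1 (by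
        intro p hp hd
        have h2 := (hQp p hp).two_le
        have h3 := Int.le_of_dvd (by norm_num) hd
        omega) qq hq1 hQq isCoprime_one_left ρ x
      rw [hHV, hH]
      simpa using h1) (by
      intro x
      have hco : IsCoprime ((2 ^ k : ℕ) : ℤ) (qq : ℤ) := by
        have h1 : Nat.Coprime (2 ^ k) qq := by
          apply Nat.Coprime.pow_left
          rw [Nat.coprime_two_left]
          exact Nat.odd_iff.2 hqo
        exact_mod_cast Nat.isCoprime_iff_coprime.2 h1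
      have h1 := hF2 y (by omega) H0 hyH2 (Q.erase 2) (fun p hp => hQy p (mem_of_mem_erase hp)) Ω (fun p hp => hΩ p (mem_of_mem_erase hp))
        ((2 ^ k : ℕ) : ℤ) (by
        intro p hp hd
        have h2 : p ∣ 2 ^ k := by exact_mod_cast hd
        have h3 := (hQp p (mem_of_mem_erase hp)).dvd_of_dvd_pow h2
        exact (ne_of_mem_erase hp) ((Nat.prime_dvd_prime_iff_eq (hQp p (mem_of_mem_erase hp)) Nat.prime_two).1 h3)) qq hq1
        (fun p hp => hQq p (mem_of_mem_erase hp)) hco ρ x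
      have h2 := (abs_le.1 h1).2
      have h3 : ∑ h ∈ cube (D + 1) H, sgq qq ρ Q Ω (x + ((2 ^ k : ℕ) : ℤ) • h) ≤ ∑ h ∈ cube (D + 1) H, sgq qq ρ (Q.erase 2) Ω (x + ((2 ^ k : ℕ) : ℤ) • h) :=
        sum_le_sum fun h _ => sgq_erase qq ρ Q Ω _
      have h4 := mul_le_mul_of_nonneg_left (VV_erase hQp hV0) (show (0 : ℝ) ≤ (H0 : ℝ) ^ (D + 1) by positivity)
      rw [hHV, hc2]
      rw [← hH] at h2
      nlinarith) h0 c hs hMN hS hH1 hA hPX (u := fun h i => -((L : ℤ) / dd i * dot (Λ i) h)) (fun h _ i => hu h i) hq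
  refine key.trans ?_
  have h5 := nums (D := D) (r := r) (A := A) (N := N) (H := H) (k := k) (C := ((pts (fun i => (L : ℤ) • Λ i) c s M N' P P' S).card : ℝ)) hε hN1 hc20 hA1 hHε hH1 hkN2 hq00.le (by
    have : q0 ≤ ε / (60 * c2 * (r + 1) * A * 2 ^ D) := by rw [hq0]; exact min_le_left _ _
    rwa [le_div_iff₀ (by positivity)] at this) (by exact_mod_cast pts_card (fun i => (L : ℤ) • Λ i) c s M N' hP S) hε10.le (by rw [hε1]; exact min_le_left _ _)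
  have h6 := mul_le_mul_of_nonneg_left h5 hVn
  refine h6.trans (le_of_eq ?_)
  ring

end Pool.Agent.W36.GT
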