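import Pool.Agent.W36.GT.T4

/-! The points of a residue class modulo a multiple of `d`. -/

set_option autoImplicit false

namespace Pool.Agent.W36.GT

open Finset Pool.Agent.W36.GK Pool.Agent.H499R2.CO Pool.Agent.W41 Pool.Agent.H499R2.ND
open Pool.Agent.W36.GS hiding inv_iter surv_of bad bad_of surv_int surv_Icc ub2 bad_sum cmp cmp_parq

/-- the classes seen from the sublattice -/
def Om {D : ℕ} (D0 : ℕ) (ρ : Fin D → ℤ) (Ω : (p : ℕ) → Set (Fin D → ZMod p)) (p : ℕ) : Set (Fin D → ZMod p) :=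
  (fun r : Fin D → ZMod p => fun j => (ρ j : ZMod p) + (D0 : ZMod p) * r j) ⁻¹' Ω p

theorem Om_card {D D0 : ℕ} (ρ : Fin D → ℤ) (Ω : (p : ℕ) → Set (Fin D → ZMod p)) {p : ℕ} (hp : p.Prime) (hpD : ¬ p ∣ D0) :
    (Om D0 ρ Ω p).ncard = (Ω p).ncard := by
  have hNe : NeZero p := ⟨hp.ne_zero⟩
  have hF : Fact p.Prime := ⟨hp⟩
  have hm0 : (D0 : ZMod p) ≠ 0 := by
    rw [Ne, ZMod.natCast_eq_zero_iff]
    exact hpD
  have hinj : Function.Injective (fun r : Fin D → ZMod p => fun j => (ρ j : ZMod p) + (D0 : ZMod p) * r j) := by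
    intro r r' hrr
    ext j
    have h1 := congrFun hrr j
    simp only at h1
    exact mul_left_cancel₀ hm0 (add_left_cancel h1)
  have hsurj := Finite.surjective_of_injective hinj
  exact Set.ncard_preimage_of_injective_subset_range hinj (by rw [hsurj.range_eq]; exact Set.subset_univ _)

theorem Om_VV {D D0 : ℕ} (ρ : Fin D → ℤ) (Ω : (p : ℕ) → Set (Fin D → ZMod p)) {Q : Finset ℕ} (hQ : ∀ p ∈ Q, p.Prime ∧ ¬ p ∣ D0) :
    VV Q (Om D0 ρ Ω) = VV Q Ω := by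
  unfold VV dn
  apply prod_congr rfl
  intro p hp
  rw [Om_card ρ Ω (hQ p hp).1 (hQ p hp).2]

/-- the points of the sublattice -/
theorem sgq_sub {D D0 q' : ℕ} (hD0 : 1 ≤ D0) (ρ : Fin D → ℤ) (Q : Finset ℕ) (Ω : (p : ℕ) → Set (Fin D → ZMod p)) (y : Fin D → ℤ) :
    sgq (D0 * q') (rd (D0 * q') ρ) Q Ω (ρ + (D0 : ℤ) • y) = sgq q' 0 Q (Om D0 ρ Ω) y := by
  classical
  have e1 : rd (D0 * q') (ρ + (D0 : ℤ) • y) = rd (D0 * q') ρ ↔ rd q' y = 0 := by
    rw [funext_iff, funext_iff]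
    apply forall_congr'
    intro j
    unfold rd
    simp only [Pi.add_apply, Pi.smul_apply, smul_eq_mul, Pi.zero_apply]
    rw [ZMod.intCast_zmod_eq_zero_iff_dvd, ← sub_eq_zero, ← Int.cast_sub, ZMod.intCast_zmod_eq_zero_iff_dvd, add_sub_cancel_left]
    push_cast
    exact mul_dvd_mul_iff_left (by exact_mod_cast (by omega : D0 ≠ 0))
  have e2 : ∀ p, rd p (ρ + (D0 : ℤ) • y) ∈ Ω p ↔ rd p y ∈ Om D0 ρ Ω p := by
    intro p
    unfold Om
    rw [Set.mem_preimage]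
    have : rd p (ρ + (D0 : ℤ) • y) = fun j => (ρ j : ZMod p) + (D0 : ZMod p) * rd p y j := by
      funext j
      unfold rd
      simp only [Pi.add_apply, Pi.smul_apply, smul_eq_mul]
      push_cast
      rfl
    rw [this]
  have e3 : sg Q Ω (ρ + (D0 : ℤ) • y) = sg Q (Om D0 ρ Ω) y := by
    unfold sg
    by_cases h : ∀ p ∈ Q, rd p (ρ + (D0 : ℤ) • y) ∉ Ω p
    · rw [if_pos h, if_pos (fun p hp h2 => h p hp ((e2 p).2 h2))]
    · rw [if_neg h, if_neg (fun h3 => h fun p hp h2 => h3 p hp ((e2 p).1 h2))]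
  unfold sgq
  by_cases h : rd q' y = 0
  · rw [if_pos (e1.2 h), if_pos h, e3]
  · rw [if_neg (fun h2 => h (e1.1 h2)), if_neg h]

theorem sgq_dvd {D D0 q' : ℕ} (ρ : Fin D → ℤ) (Q : Finset ℕ) (Ω : (p : ℕ) → Set (Fin D → ZMod p)) (x : Fin D → ℤ)
    (h : sgq (D0 * q') (rd (D0 * q') ρ) Q Ω x ≠ 0) (j : Fin D) : (D0 : ℤ) ∣ x j - ρ j := by
  classical
  unfold sgq at h
  by_cases h1 : rd (D0 * q') x = rd (D0 * q') ρ
  · have h2 := congrFun h1 j
    unfold rd at h2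
    have h3 : ((D0 * q' : ℕ) : ℤ) ∣ x j - ρ j := by
      rw [← ZMod.intCast_zmod_eq_zero_iff_dvd, Int.cast_sub, h2, sub_self]
    push_cast at h3
    exact dvd_trans (dvd_mul_right _ _) h3
  · rw [if_neg h1] at h
    exact absurd rfl h

open Classical in
theorem pts_sub {D r D0 : ℕ} (hD0 : 1 ≤ D0) (Λ : Fin r → Fin D → ℤ) (c s : Fin r → ℤ) (M N : Fin r → ℕ) (P P' : Fin D → ℤ)
    (S : Fin r → Set ℤ) (ρ : Fin D → ℤ) (y : Fin D → ℤ) : ρ + (D0 : ℤ) • y ∈ pts Λ c s M N P P' S ↔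
      y ∈ pts (fun i => (D0 : ℤ) • Λ i) (fun i => dot (Λ i) ρ + c i) s M N (fun j => (P j - ρ j) / (D0 : ℤ)) (fun j => (P' j - ρ j) / (D0 : ℤ)) S := by
  have hD : (0 : ℤ) < D0 := by exact_mod_cast hD0
  unfold pts
  rw [mem_filter, mem_filter, mem_box, mem_box]
  have e1 : ∀ i, dot (Λ i) (ρ + (D0 : ℤ) • y) + c i = dot ((D0 : ℤ) • Λ i) y + (dot (Λ i) ρ + c i) := by
    intro i
    rw [dot_smul_left]
    have : dot (Λ i) (ρ + (D0 : ℤ) • y) = dot (Λ i) ρ + D0 * dot (Λ i) y := by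
      unfold dot
      rw [mul_sum, ← sum_add_distrib]
      apply sum_congr rfl; intro j _
      simp only [Pi.add_apply, Pi.smul_apply, smul_eq_mul]; ring
    rw [this]; ring
  simp only [e1]
  apply and_congr _ Iff.rfl
  apply forall_congr'
  intro j
  simp only [Pi.add_apply, Pi.smul_apply, smul_eq_mul]
  rw [Int.ediv_lt_iff_lt_mul hD, Int.le_ediv_iff_mul_le hD]
  constructor <;> rintro ⟨a, b⟩ <;> constructor <;> linarith

theorem sub_inj {D D0 : ℕ} (hD0 : 1 ≤ D0) (ρ : Fin D → ℤ) : Function.Injective (fun y : Fin D → ℤ => ρ + (D0 : ℤ) • y) := by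
  have hD : (0 : ℤ) < D0 := by exact_mod_cast hD0
  intro y y' h
  funext j
  have h1 := congrFun h j
  simp only [Pi.add_apply, Pi.smul_apply, smul_eq_mul] at h1
  exact mul_left_cancel₀ hD.ne' (add_left_cancel h1)

open Classical in
/-- change of variables -/
theorem change {D r D0 : ℕ} (hD0 : 1 ≤ D0) (Λ : Fin r → Fin D → ℤ) (c s : Fin r → ℤ) (M N : Fin r → ℕ) (P P' : Fin D → ℤ)
    (S : Fin r → Set ℤ) (ρ : Fin D → ℤ) (f : (Fin D → ℤ) → ℝ) (hf : ∀ x, f x ≠ 0 → ∀ j, (D0 : ℤ) ∣ x j - ρ j) :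
    ∑ x ∈ pts Λ c s M N P P' S, f x =
      ∑ y ∈ pts (fun i => (D0 : ℤ) • Λ i) (fun i => dot (Λ i) ρ + c i) s M N (fun j => (P j - ρ j) / (D0 : ℤ)) (fun j => (P' j - ρ j) / (D0 : ℤ)) S,
        f (ρ + (D0 : ℤ) • y) := by
  rw [← sum_image (s := pts (fun i => (D0 : ℤ) • Λ i) (fun i => dot (Λ i) ρ + c i) s M N (fun j => (P j - ρ j) / (D0 : ℤ)) (fun j => (P' j - ρ j) / (D0 : ℤ)) S)
    (g := fun y => ρ + (D0 : ℤ) • y) (f := f) (fun y _ y' _ h => sub_inj hD0 ρ h)]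
  symm
  apply sum_subset
  · intro x hx
    obtain ⟨y, hy, rfl⟩ := mem_image.1 hx
    exact (pts_sub hD0 Λ c s M N P P' S ρ y).2 hy
  · intro x hx hx'
    by_contra h0
    apply hx'
    choose y hy using hf x h0
    have e : ρ + (D0 : ℤ) • y = x := by
      funext j
      simp only [Pi.add_apply, Pi.smul_apply, smul_eq_mul]
      linarith [hy j]
    rw [mem_image]
    refine ⟨y, ?_, e⟩
    rw [← pts_sub hD0, e]
    exact hx

end Pool.Agent.W36.GT
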