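import Pool.Agent.W36.GT.T5

/-! The comparison theorem in the original variables, uniformly in the maps. -/

set_option autoImplicit false

namespace Pool.Agent.W36.GT

open Finset Pool.Agent.W36.GK Pool.Agent.H499R2.CO Pool.Agent.W41 Pool.Agent.H499R2.ND Pool.Agent.W41.FU Pool.Agent.W36.FD
  Pool.Agent.W36.GU Pool.Agent.W36.GV Pool.Agent.W36.GL
open Pool.Agent.W36.GS hiding inv_iter surv_of bad bad_of surv_int surv_Icc ub2 bad_sum cmp cmp_parq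

theorem ediv_sub_le' {a b : ℤ} {L N : ℕ} (hL : 1 ≤ L) (h : b - a ≤ N) : b / (L : ℤ) - a / (L : ℤ) ≤ ((N / L + 1 : ℕ) : ℤ) := by
  have hL0 : (0 : ℤ) < L := by exact_mod_cast hL
  have h1 : a < (a / (L : ℤ) + 1) * L := Int.lt_ediv_add_one_mul_self a hL0
  have h2 : N < L * (N / L + 1) := Nat.lt_mul_div_succ N hL
  have h3 : (N : ℤ) < L * ((N / L : ℕ) + 1) := by exact_mod_cast h2
  have h4 : b / (L : ℤ) < a / (L : ℤ) + ((N / L : ℕ) : ℤ) + 2 := by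
    rw [Int.ediv_lt_iff_lt_mul hL0]
    nlinarith
  push_cast at h4 ⊢
  linarith

/-- the number of the points of a residue class as a sum -/
theorem sgq_one {D r L : ℕ} (hL : 1 ≤ L) (Λ : Fin r → Fin D → ℤ) (c s : Fin r → ℤ) (M N : Fin r → ℕ) (P P' : Fin D → ℤ)
    (S : Fin r → Set ℤ) (ρ : Fin D → ℤ) (Ω : (p : ℕ) → Set (Fin D → ZMod p)) :
    ∑ x ∈ pts Λ c s M N P P' S, sgq L (rd L ρ) ∅ Ω x =
      (pts (fun i => (L : ℤ) • Λ i) (fun i => dot (Λ i) ρ + c i) s M N (fun j => (P j - ρ j) / (L : ℤ)) (fun j => (P' j - ρ j) / (L : ℤ)) S).card := by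
  classical
  have e0 : L = L * 1 := (mul_one L).symm
  have h1 := change hL Λ c s M N P P' S ρ (fun x => sgq (L * 1) (rd (L * 1) ρ) ∅ Ω x) (fun x hx j => sgq_dvd ρ ∅ Ω x hx j)
  rw [← e0] at h1
  rw [h1]
  have h2 : ∀ y : Fin D → ℤ, sgq L (rd L ρ) ∅ Ω (ρ + (L : ℤ) • y) = 1 := by
    intro y
    have h3 := sgq_sub (q' := 1) hL ρ ∅ Ω y
    rw [← e0] at h3
    rw [h3]
    unfold sgq sg
    rw [if_pos (by
      funext j
      exact Subsingleton.elim _ _), if_pos (by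
      intro p hp
      simp at hp)]
  simp only [h2]
  rw [sum_const, nsmul_eq_mul, mul_one]

/-- THE COMPARISON in the original variables, uniformly in the maps -/
theorem cmpX {D r κ : ℕ} {Λ : Fin r → Fin (D + 1) → ℤ} (h0 : ∀ i, Λ i ≠ 0) {s : Fin r → ℤ} (hs : ∀ i, s i = 1 ∨ s i = -1)
    {ε : ℝ} (hε : 0 < ε) : ∃ θ : ℝ, 0 < θ ∧ ∃ N0 : ℕ, ∀ N : ℕ, N0 ≤ N → ∀ Q : Finset ℕ, (∀ p ∈ Q, p.Prime ∧ (p : ℝ) ≤ (N : ℝ) ^ θ) →
    ∀ Ω : (p : ℕ) → Set (Fin (D + 1) → ZMod p), (∀ p ∈ Q, (Ω p).ncard * p ≤ κ * p ^ (D + 1)) →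
    ∀ qq : ℕ, qq % 2 = 1 → (qq : ℝ) ≤ (N : ℝ) ^ θ → (∀ p ∈ Q, ¬ p ∣ qq) → ∀ ρ : Fin (D + 1) → ℤ,
    ∀ L : ℕ, L ∣ qq → ∀ dd : Fin r → ℤ, (∀ i, dd i ∣ (L : ℤ)) →
    ∀ S : Fin r → Set ℤ, (∀ i x, x ∈ S i ↔ Tz (dd i) x ∈ S i) → ∀ c : Fin r → ℤ, ∀ M N' : Fin r → ℕ, (∀ i, M i ≤ N' i) →
    ∀ P P' : Fin (D + 1) → ℤ, (∀ j, P' j - P j ≤ N) →
    |∑ x ∈ pts Λ c s M N' P P' S, sgq qq (rd qq ρ) Q Ω x - VV Q Ω / ((qq : ℝ) / L) ^ (D + 1) * ∑ x ∈ pts Λ c s M N' P P' S, sgq L (rd L ρ) ∅ Ω x| ≤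
      ε * (VV Q Ω / (qq : ℝ) ^ (D + 1)) * (N : ℝ) ^ (D + 1) := by
  obtain ⟨θ1, hθ1, N1, h1⟩ := cmp_parq (κ := κ) h0 hs (show 0 < ε / 2 ^ (D + 1) by positivity)
  obtain ⟨θ, hθd⟩ : ∃ θ : ℝ, θ = min (θ1 / 2) (1 / 2) := ⟨_, rfl⟩
  have hθ : 0 < θ := by rw [hθd]; exact lt_min (by positivity) (by norm_num)
  have hθa : θ ≤ θ1 / 2 := by rw [hθd]; exact min_le_left _ _
  have hθb : θ ≤ 1 / 2 := by rw [hθd]; exact min_le_right _ _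
  refine ⟨θ, hθ, N1 ^ 2 + 1, fun N hN Q hQ Ω hΩ qq hqo hqN hQq ρ L hLq dd hdL S hS c M N' hM P P' hP => ?_⟩
  obtain ⟨q', rfl⟩ := hLq
  have hq'1 : 1 ≤ q' := by
    rcases Nat.eq_zero_or_pos q' with h | h
    · rw [h] at hqo; simp at hqo
    · exact h
  have hL1 : 1 ≤ L := by
    rcases Nat.eq_zero_or_pos L with h | h
    · rw [h] at hqo; simp at hqo
    · exact h
  have hq'R : (0 : ℝ) < q' := by exact_mod_cast hq'1
  have hLR : (0 : ℝ) < L := by exact_mod_cast hL1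
  have hq'o : q' % 2 = 1 := by
    rcases Nat.mod_two_eq_zero_or_one q' with h | h
    · rw [Nat.mul_mod, h] at hqo; simp at hqo
    · exact h
  have hLo : L % 2 = 1 := by
    rcases Nat.mod_two_eq_zero_or_one L with h | h
    · rw [Nat.mul_mod, h] at hqo; simp at hqo
    · exact h
  have hN1 : 1 ≤ N := by omega
  have hNR : (1 : ℝ) ≤ N := by exact_mod_cast hN1
  have hNp : (0 : ℝ) < N := by linarith
  obtain ⟨Y, hY⟩ : ∃ Y : ℕ, Y = N / L + 1 := ⟨_, rfl⟩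
  have hLN : (L : ℝ) ≤ (N : ℝ) ^ θ := by
    refine le_trans ?_ hqN
    have : L ≤ L * q' := Nat.le_mul_of_pos_right _ (by omega)
    exact_mod_cast this
  have hYN : (N : ℝ) ^ (1 / 2 : ℝ) ≤ Y := by
    have h2 : N < L * Y := by rw [hY]; exact Nat.lt_mul_div_succ N (by omega)
    have h3 : (N : ℝ) ≤ L * Y := by exact_mod_cast h2.le
    have h4 : (L : ℝ) ≤ (N : ℝ) ^ (1 / 2 : ℝ) := hLN.trans (Real.rpow_le_rpow_of_exponent_le hNR hθb)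
    have h5 : (N : ℝ) ^ (1 / 2 : ℝ) * (N : ℝ) ^ (1 / 2 : ℝ) = N := by
      rw [← Real.rpow_add hNp]; norm_num
    have h6 : (0 : ℝ) < (N : ℝ) ^ (1 / 2 : ℝ) := by positivity
    have h7 : (N : ℝ) ^ (1 / 2 : ℝ) * (N : ℝ) ^ (1 / 2 : ℝ) ≤ (N : ℝ) ^ (1 / 2 : ℝ) * Y := by
      rw [h5]
      refine h3.trans (mul_le_mul_of_nonneg_right h4 (Nat.cast_nonneg _))
    exact le_of_mul_le_mul_left h7 h6
  have hNY : (N : ℝ) ^ θ ≤ (Y : ℝ) ^ θ1 := by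
    calc (N : ℝ) ^ θ ≤ (N : ℝ) ^ (θ1 / 2) := Real.rpow_le_rpow_of_exponent_le hNR hθa
      _ = ((N : ℝ) ^ (1 / 2 : ℝ)) ^ θ1 := by rw [← Real.rpow_mul hNp.le]; congr 1; ring
      _ ≤ (Y : ℝ) ^ θ1 := Real.rpow_le_rpow (by positivity) hYN hθ1.le
  have hN1Y : N1 ≤ Y := by
    have h2 : ((N1 : ℝ) ^ 2) ≤ N := by exact_mod_cast (by omega : N1 ^ 2 ≤ N)
    have h3 : (N1 : ℝ) ≤ (N : ℝ) ^ (1 / 2 : ℝ) := by
      calc (N1 : ℝ) = ((N1 : ℝ) ^ 2) ^ (1 / 2 : ℝ) := by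
            rw [← Real.rpow_natCast, ← Real.rpow_mul (Nat.cast_nonneg _)]; norm_num
        _ ≤ _ := Real.rpow_le_rpow (by positivity) h2 (by norm_num)
    exact_mod_cast h3.trans hYN
  have hLleN : L ≤ N := by
    have h2 : (N : ℝ) ^ θ ≤ (N : ℝ) ^ (1 : ℝ) := Real.rpow_le_rpow_of_exponent_le hNR (by linarith)
    rw [Real.rpow_one] at h2
    exact_mod_cast hLN.trans h2
  have hYle : (Y : ℝ) ≤ 2 * (N : ℝ) / L := by
    rw [le_div_iff₀ hLR]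
    have h2 : Y * L ≤ 2 * N := by
      rw [hY, add_mul, one_mul]
      have := Nat.div_mul_le_self N L
      omega
    exact_mod_cast h2
  have hq'N : (q' : ℝ) ≤ (Y : ℝ) ^ θ1 := by
    refine le_trans ?_ (hqN.trans hNY)
    have : q' ≤ L * q' := Nat.le_mul_of_pos_left _ (by omega)
    exact_mod_cast this
  have hQD : ∀ p ∈ Q, p.Prime ∧ ¬ p ∣ L := fun p hp => ⟨(hQ p hp).1, fun h => hQq p hp (Dvd.dvd.mul_right h _)⟩
  have hQ' : ∀ p ∈ Q, ¬ p ∣ q' := fun p hp h => hQq p hp (Dvd.dvd.mul_left h _)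
  have hΩ' : ∀ p ∈ Q, (Om L ρ Ω p).ncard * p ≤ κ * p ^ (D + 1) := by
    intro p hp
    rw [Om_card ρ Ω (hQD p hp).1 (hQD p hp).2]
    exact hΩ p hp
  have hsum : ∑ x ∈ pts Λ c s M N' P P' S, sgq (L * q') (rd (L * q') ρ) Q Ω x =
      ∑ y ∈ pts (fun i => (L : ℤ) • Λ i) (fun i => dot (Λ i) ρ + c i) s M N' (fun j => (P j - ρ j) / (L : ℤ)) (fun j => (P' j - ρ j) / (L : ℤ)) S,
        sgq q' 0 Q (Om L ρ Ω) y := by
    rw [change hL1 Λ c s M N' P P' S ρ _ (fun x hx j => sgq_dvd ρ Q Ω x hx j)]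
    apply sum_congr rfl
    intro y _
    exact sgq_sub hL1 ρ Q Ω y
  have a1 := h1 Y hN1Y Q (fun p hp => ⟨(hQ p hp).1, (hQ p hp).2.trans hNY⟩) (Om L ρ Ω) hΩ' q' hq'o hq'N hQ' 0 L hLo (hLN.trans hNY) dd hdL S hS
    (fun i => dot (Λ i) ρ + c i) M N' hM (fun j => (P j - ρ j) / (L : ℤ)) (fun j => (P' j - ρ j) / (L : ℤ))
    (fun j => by rw [hY]; exact ediv_sub_le' hL1 (by have := hP j; linarith))
  rw [Om_VV ρ Ω hQD] at a1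
  rw [hsum, sgq_one hL1]
  have e1 : (((L * q' : ℕ) : ℝ) / L) = q' := by push_cast; field_simp
  rw [e1]
  refine a1.trans ?_
  have hV' := VV_nn (fun p hp => (hQ p hp).1) Ω
  calc ε / 2 ^ (D + 1) / 3 * (VV Q Ω / (q' : ℝ) ^ (D + 1)) * (Y : ℝ) ^ (D + 1)
      ≤ ε / 2 ^ (D + 1) / 3 * (VV Q Ω / (q' : ℝ) ^ (D + 1)) * (2 * (N : ℝ) / L) ^ (D + 1) := by
        apply mul_le_mul_of_nonneg_left _ (by positivity)
        exact pow_le_pow_left₀ (Nat.cast_nonneg _) hYle _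
    _ = 1 / 3 * (ε * (VV Q Ω / ((L * q' : ℕ) : ℝ) ^ (D + 1)) * (N : ℝ) ^ (D + 1)) := by
        push_cast
        rw [mul_pow, div_pow, mul_pow]
        field_simp
    _ ≤ _ := by
        have : 0 ≤ ε * (VV Q Ω / ((L * q' : ℕ) : ℝ) ^ (D + 1)) * (N : ℝ) ^ (D + 1) := by positivity
        linarith

end Pool.Agent.W36.GT
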