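import Pool.Agent.W36.GT.T6

/-! The relative law for several maps `T_d` in the residue classes modulo the common multiples of the constants. -/

set_option autoImplicit false

namespace Pool.Agent.W36.GT

open Finset Pool.Agent.W36.GK Pool.Agent.H499R2.CO Pool.Agent.W41 Pool.Agent.H499R2.ND Pool.Agent.W41.FU Pool.Agent.W36.FD
  Pool.Agent.W36.GU Pool.Agent.W36.GV Pool.Agent.W36.GL
open Pool.Agent.W36.GS hiding inv_iter surv_of bad bad_of surv_int surv_Icc ub2 bad_sum cmp cmp_parq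

/-- the number of the points of a box at which forms have values in sets invariant under several maps -/
theorem countDD {D r : ℕ} {dd : Fin r → ℤ} (hd : ∀ i, dd i % 6 = 1 ∨ dd i % 6 = 5) (Λ : Fin r → Fin D → ℤ) (h0 : ∀ i, Λ i ≠ 0)
    (hΛ : ∀ i j, i ≠ j → Indep (Λ i) (Λ j)) {s : Fin r → ℤ} (hs : ∀ i, s i = 1 ∨ s i = -1) {ε : ℝ} (hε : 0 < ε) :
    ∃ X0 : ℕ, ∀ S : Fin r → Set ℤ, (∀ i, Inv (dd i) (S i)) → ∀ φ : Fin r → ℤ → ℝ, (∀ i, IsPhi (dd i) (s i) (S i) (φ i)) → ∀ X : ℕ, X0 ≤ X →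
      ∀ c : Fin r → ℤ, ∀ M N : Fin r → ℕ, (∀ i, M i ≤ N i) → (∀ i, N i ≤ X) → ∀ P P' : Fin D → ℤ, (∀ j, P' j - P j ≤ X) →
      |(Cn Λ c s M N P P' S : ℝ) - Wn Λ c s M N P P' φ| ≤ ε * (X : ℝ) ^ D := by
  classical
  set Λ' : Fin r → Fin D → ℤ := fun i j => s i * Λ i j with hΛ'
  have hs0 : ∀ i, s i ≠ 0 := fun i => by rcases hs i with h | h <;> rw [h] <;> norm_num
  obtain ⟨η, hη, X1, h⟩ := forms_count Λ' (by
    intro i h1
    apply h0 i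
    ext j
    have := congrFun h1 j
    simp only [hΛ', Pi.zero_apply] at this
    simp only [Pi.zero_apply]
    exact (mul_eq_zero.1 this).resolve_left (hs0 i)) (by
    intro i j hij a b hab
    have h1 := hΛ i j hij (a * s i) (b * s j) (by
      ext l
      have := congrFun hab l
      simp only [hΛ', Pi.smul_apply, smul_eq_mul] at this ⊢
      linarith)
    exact ⟨(mul_eq_zero.1 h1.1).resolve_right (hs0 i), (mul_eq_zero.1 h1.2).resolve_right (hs0 j)⟩) hε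
  choose X2 h2 using fun i => BD_sm (hd i) (hs i) (r + 1) η hη
  have hX2 : ∀ i, X2 i ≤ ∑ i, X2 i := fun i => single_le_sum (f := X2) (fun _ _ => Nat.zero_le _) (mem_univ i)
  refine ⟨X1 + ∑ i, X2 i, fun S hS φ hφ X hX c M N hM hN P P' hP => ?_⟩
  rw [Cn_eq Λ c hs]
  unfold Wn
  have hind1 : ∀ (s : ℤ) (T : Set ℤ) (n : ℤ), |ind s T n| ≤ 1 := by
    intro s T n
    rw [abs_of_nonneg (ind_nonneg _ _ _)]
    exact ind_le_one _ _ _
  have e2 : ∀ i, (fun n => win (M i) (N i) (ind (s i) (S i)) n - win (M i) (N i) (sph (s i) (φ i)) n)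
      = win (M i) (N i) (balD (s i) (S i) (φ i)) := by
    intro i
    ext n
    unfold win balD sph
    split_ifs <;> ring
  have hmem : ∀ i, balD (s i) (S i) (φ i) ∈ BD (dd i) (s i) := fun i => ⟨S i, hS i, φ i, hφ i, rfl⟩
  refine h X (by omega) (fun i => s i * c i) P P' hP (fun i => win (M i) (N i) (ind (s i) (S i)))
    (fun i => win (M i) (N i) (sph (s i) (φ i))) (fun i => win_abs (hind1 _ _) _ _)
    (fun i => win_abs (sph_abs (hφ i)) _ _) ?_ ?_ ?_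
  · intro i
    rw [e2]
    exact win_abs (fun n => BD_abs (hmem i) n) _ _
  · intro i
    rw [e2]
    exact win_sup _ _ (hN i)
  · intro i
    rw [e2]
    exact h2 i X (by have := hX2 i; omega) _ (hmem i) _ _ (hM i) (hN i)

theorem phi_class {d s : ℤ} {S : Set ℤ} {φ : ℤ → ℝ} (h : IsPhi d s S φ) {x y : ℤ} (hxy : d ∣ x - y) : φ x = φ y := by
  apply h.2.1
  exact rel_of_dvd hxy

/-- the sum of the products of the local densities is constant on a residue class modulo `d` -/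
theorem Wn_const {D r : ℕ} {dd : Fin r → ℤ} {m : ℤ} (hm : ∀ i, dd i ∣ m) (Λ : Fin r → Fin D → ℤ) (c : Fin r → ℤ) {s : Fin r → ℤ} (hs : ∀ i, s i = 1 ∨ s i = -1) (M N : Fin r → ℕ)
    (P P' : Fin D → ℤ) {S : Fin r → Set ℤ} {φ : Fin r → ℤ → ℝ} (hφ : ∀ i, IsPhi (dd i) (s i) (S i) (φ i)) :
    Wn (fun i => m • Λ i) c s M N P P' φ = (∏ i, φ i (c i)) * (pts (fun i => m • Λ i) c s M N P P' (fun _ => Set.univ)).card := by
  classical
  unfold Wn pts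
  rw [card_filter]
  push_cast
  rw [mul_sum]
  apply sum_congr rfl
  intro x _
  have e3 : ∀ i, dot (fun j => s i * (m • Λ i) j) x + s i * c i = s i * (dot (m • Λ i) x + c i) := by
    intro i
    unfold dot
    rw [mul_add, mul_sum]
    congr 1
    apply sum_congr rfl; intro j _; ring
  by_cases h : ∀ i, (dot (m • Λ i) x + c i) ∈ (Set.univ : Set ℤ) ∧ (M i : ℤ) < s i * (dot (m • Λ i) x + c i) ∧
      s i * (dot (m • Λ i) x + c i) ≤ N i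
  · rw [if_pos h, mul_one]
    apply prod_congr rfl
    intro i _
    rw [e3]
    unfold win sph
    rw [if_pos (h i).2]
    have e4 : s i * (s i * (dot (m • Λ i) x + c i)) = dot (m • Λ i) x + c i := by
      rcases hs i with h | h <;> rw [h] <;> ring
    rw [e4]
    apply phi_class (hφ i)
    rw [dot_smul_left, add_sub_cancel_right]
    exact Dvd.dvd.mul_right (hm i) _
  · rw [if_neg h, mul_zero]
    push Not at h
    obtain ⟨i, h2⟩ := h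
    apply prod_eq_zero (mem_univ i)
    rw [e3]
    unfold win
    rw [if_neg]
    rintro ⟨b2, b3⟩
    have := h2 (Set.mem_univ _) b2
    omega

theorem smul_indep {D : ℕ} {a b : Fin D → ℤ} {m : ℤ} (hm : m ≠ 0) (h : Indep a b) : Indep (m • a) (m • b) := by
  intro u v huv
  have h1 := h (u * m) (v * m) (by rw [mul_smul, mul_smul]; exact huv)
  rcases h1 with ⟨h2, h3⟩
  exact ⟨(mul_eq_zero.1 h2).resolve_right hm, (mul_eq_zero.1 h3).resolve_right hm⟩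

theorem smul_ne {D : ℕ} {a : Fin D → ℤ} {m : ℤ} (hm : m ≠ 0) (h : a ≠ 0) : m • a ≠ 0 := by
  intro h1
  apply h
  funext j
  have h2 := congrFun h1 j
  simp only [Pi.smul_apply, smul_eq_mul, Pi.zero_apply] at h2 ⊢
  exact (mul_eq_zero.1 h2).resolve_left hm

/-- the least common multiple of the constants -/
def lc {r : ℕ} (dd : Fin r → ℤ) : ℕ := Finset.univ.lcm (fun i => (dd i).natAbs)

theorem dvd_lc {r : ℕ} (dd : Fin r → ℤ) (i : Fin r) : dd i ∣ (lc dd : ℤ) := by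
  have h : (dd i).natAbs ∣ lc dd := Finset.dvd_lcm (Finset.mem_univ i)
  exact Int.natAbs_dvd.1 (by exact_mod_cast h)

theorem lc_dvd {r : ℕ} {dd : Fin r → ℤ} {m : ℕ} (h : ∀ i, dd i ∣ (m : ℤ)) : lc dd ∣ m :=
  Finset.lcm_dvd fun i _ => Int.natAbs_dvd_natAbs.2 (h i)

theorem lc_pos {r : ℕ} {dd : Fin r → ℤ} (hd : ∀ i, dd i ≠ 0) : 1 ≤ lc dd := by
  rcases Nat.eq_zero_or_pos (lc dd) with h | h
  · unfold lc at h
    rw [Finset.lcm_eq_zero_iff] at h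
    obtain ⟨i, -, hi⟩ := h
    exact absurd (Int.natAbs_eq_zero.1 hi) (hd i)
  · exact h

/-- the relative law -/
theorem relDD {D r κ : ℕ} {dd : Fin r → ℤ} (hd : ∀ i, dd i % 6 = 1 ∨ dd i % 6 = 5) {Λ : Fin r → Fin (D + 1) → ℤ} (h0 : ∀ i, Λ i ≠ 0)
    (hΛ : ∀ i j, i ≠ j → Indep (Λ i) (Λ j)) {s : Fin r → ℤ} (hs : ∀ i, s i = 1 ∨ s i = -1)
    {ε : ℝ} (hε : 0 < ε) : ∃ θ : ℝ, 0 < θ ∧ ∃ N0 : ℕ, ∀ S : Fin r → Set ℤ, (∀ i, Inv (dd i) (S i)) → ∀ φ : Fin r → ℤ → ℝ, (∀ i, IsPhi (dd i) (s i) (S i) (φ i)) →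
    ∀ N : ℕ, N0 ≤ N → ∀ Q : Finset ℕ, (∀ p ∈ Q, p.Prime ∧ (p : ℝ) ≤ (N : ℝ) ^ θ) →
    ∀ Ω : (p : ℕ) → Set (Fin (D + 1) → ZMod p), (∀ p ∈ Q, (Ω p).ncard * p ≤ κ * p ^ (D + 1)) →
    ∀ qq : ℕ, qq % 2 = 1 → (qq : ℝ) ≤ (N : ℝ) ^ θ → (∀ i, dd i ∣ (qq : ℤ)) → (∀ p ∈ Q, ¬ p ∣ qq) → ∀ ρ : Fin (D + 1) → ℤ,
    ∀ c : Fin r → ℤ, ∀ M N' : Fin r → ℕ, (∀ i, M i ≤ N' i) → (∀ i, N' i ≤ N) →
    ∀ P P' : Fin (D + 1) → ℤ, (∀ j, P' j - P j ≤ N) →
    |∑ x ∈ pts Λ c s M N' P P' S, sgq qq (rd qq ρ) Q Ω x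
      - (∏ i, φ i (dot (Λ i) ρ + c i)) * ∑ x ∈ pts Λ c s M N' P P' (fun _ => Set.univ), sgq qq (rd qq ρ) Q Ω x| ≤
      ε * (VV Q Ω / (qq : ℝ) ^ (D + 1)) * (N : ℝ) ^ (D + 1) := by
  obtain ⟨L, hLd⟩ : ∃ L : ℕ, L = lc dd := ⟨_, rfl⟩
  have hL1 : 1 ≤ L := by rw [hLd]; exact lc_pos fun i => by have := hd i; omega
  have hdL : ∀ i, dd i ∣ (L : ℤ) := fun i => by rw [hLd]; exact dvd_lc dd i
  have hLR : (0 : ℝ) < L := by exact_mod_cast hL1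
  have hLZ : (L : ℤ) ≠ 0 := by exact_mod_cast (by omega : L ≠ 0)
  obtain ⟨θ, hθ, N1, h1⟩ := cmpX (κ := κ) h0 hs (show 0 < ε / 3 by positivity)
  obtain ⟨N2, h2⟩ := countDD hd (fun i => (L : ℤ) • Λ i) (fun i => smul_ne hLZ (h0 i))
    (fun i j hij => smul_indep hLZ (hΛ i j hij)) hs (show 0 < ε / (3 * (L : ℝ) ^ (D + 1)) by positivity)
  refine ⟨θ, hθ, N1 + N2, fun S hS φ hφ N hN Q hQ Ω hΩ qq hqo hqN hdq hQq ρ c M N' hM hN' P P' hP => ?_⟩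
  have hLq : L ∣ qq := by rw [hLd]; exact lc_dvd hdq
  have hqq1 : 1 ≤ qq := by omega
  have hqR : (0 : ℝ) < qq := by exact_mod_cast hqq1
  have a1 := h1 N (by omega) Q hQ Ω hΩ qq hqo hqN hQq ρ L hLq dd hdL S (fun i x => hS i x) c M N' hM P P' hP
  have a2 := h1 N (by omega) Q hQ Ω hΩ qq hqo hqN hQq ρ L hLq dd hdL (fun _ => Set.univ) (fun i x => Iff.rfl) c M N' hM P P' hP
  rw [sgq_one hL1] at a1 a2
  have a3 := h2 S hS φ hφ N (by omega) (fun i => dot (Λ i) ρ + c i) M N' hM hN' (fun j => (P j - ρ j) / (L : ℤ)) (fun j => (P' j - ρ j) / (L : ℤ))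
    (fun j => ediv_sub_le hL1 (by have := hP j; linarith))
  rw [Wn_const hdL Λ (fun i => dot (Λ i) ρ + c i) hs M N' _ _ hφ, ← pts_Cn] at a3
  have hV' := VV_nn (fun p hp => (hQ p hp).1) Ω
  obtain ⟨V, hVd⟩ : ∃ V : ℝ, V = VV Q Ω / (qq : ℝ) ^ (D + 1) := ⟨_, rfl⟩
  have hV : 0 ≤ V := by rw [hVd]; positivity
  have hW : VV Q Ω / ((qq : ℝ) / L) ^ (D + 1) = V * (L : ℝ) ^ (D + 1) := by
    rw [hVd, div_pow]; field_simp
  rw [hW, ← hVd] at a1 a2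
  rw [← hVd]
  have hφ' : ∀ i, 0 ≤ φ i (dot (Λ i) ρ + c i) ∧ φ i (dot (Λ i) ρ + c i) ≤ 1 := fun i => (hφ i).1 _
  have hd0 : 0 ≤ ∏ i, φ i (dot (Λ i) ρ + c i) := prod_nonneg fun i _ => (hφ' i).1
  have hd1 : ∏ i, φ i (dot (Λ i) ρ + c i) ≤ 1 := prod_le_one (fun i _ => (hφ' i).1) (fun i _ => (hφ' i).2)
  obtain ⟨a, ha⟩ : ∃ a, a = ∑ x ∈ pts Λ c s M N' P P' S, sgq qq (rd qq ρ) Q Ω x := ⟨_, rfl⟩
  obtain ⟨b, hb⟩ : ∃ b, b = ∑ x ∈ pts Λ c s M N' P P' (fun _ => Set.univ), sgq qq (rd qq ρ) Q Ω x := ⟨_, rfl⟩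
  obtain ⟨n, hn⟩ : ∃ n, n = ((pts (fun i => (L : ℤ) • Λ i) (fun i => dot (Λ i) ρ + c i) s M N' (fun j => (P j - ρ j) / (L : ℤ)) (fun j => (P' j - ρ j) / (L : ℤ)) S).card : ℝ) := ⟨_, rfl⟩
  obtain ⟨m, hm⟩ : ∃ m, m = ((pts (fun i => (L : ℤ) • Λ i) (fun i => dot (Λ i) ρ + c i) s M N' (fun j => (P j - ρ j) / (L : ℤ)) (fun j => (P' j - ρ j) / (L : ℤ)) (fun _ => Set.univ)).card : ℝ) := ⟨_, rfl⟩
  rw [← ha, ← hn] at a1
  rw [← hb, ← hm] at a2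
  rw [← hn, ← hm] at a3
  rw [← ha, ← hb]
  obtain ⟨π, hπ⟩ : ∃ π, π = ∏ i, φ i (dot (Λ i) ρ + c i) := ⟨_, rfl⟩
  rw [← hπ] at a3 hd0 hd1 ⊢
  obtain ⟨W, hWd⟩ : ∃ W, W = V * (L : ℝ) ^ (D + 1) := ⟨_, rfl⟩
  have hW0 : 0 ≤ W := by rw [hWd]; positivity
  rw [← hWd] at a1 a2
  have e : a - π * b = (a - W * n) + W * (n - π * m) - π * (b - W * m) := by ring
  rw [e]
  have b1 : |W * (n - π * m)| ≤ ε / 3 * V * (N : ℝ) ^ (D + 1) := by
    rw [abs_mul, abs_of_nonneg hW0]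
    refine (mul_le_mul_of_nonneg_left a3 hW0).trans (le_of_eq ?_)
    rw [hWd]
    field_simp
  have b2 : |π * (b - W * m)| ≤ 1 * (ε / 3 * V * (N : ℝ) ^ (D + 1)) := by
    rw [abs_mul, abs_of_nonneg hd0]
    exact mul_le_mul hd1 a2 (abs_nonneg _) zero_le_one
  calc |(a - W * n) + W * (n - π * m) - π * (b - W * m)|
      ≤ |(a - W * n) + W * (n - π * m)| + |π * (b - W * m)| := abs_sub _ _
    _ ≤ |a - W * n| + |W * (n - π * m)| + |π * (b - W * m)| := by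
      have := abs_add_le (a - W * n) (W * (n - π * m))
      linarith
    _ ≤ ε * V * (N : ℝ) ^ (D + 1) := by linarith

end Pool.Agent.W36.GT
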