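import Pool.Agent.W36.GT.T7

/-! Many sifted points with values in given sets invariant under several maps `T_d`. -/

set_option autoImplicit false

namespace Pool.Agent.W36.GT

open Finset Pool.Agent.W36.GK Pool.Agent.H499R2.CO Pool.Agent.W41 Pool.Agent.H499R2.ND Pool.Agent.W41.FU Pool.Agent.W36.FD
  Pool.Agent.W36.GU Pool.Agent.W36.GV Pool.Agent.W36.GL
open Pool.Agent.W36.GS hiding inv_iter surv_of bad bad_of surv_int surv_Icc ub2 bad_sum cmp cmp_parq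

/-- many points of a residue class at which the forms are of sign `s` -/
theorem pts_class' {D r : ℕ} (Λ : Fin r → Fin D → ℤ) {k : ℕ} (hk : 1 ≤ k) (v : Fin D → ℤ) {s : ℤ} (hs : s = 1 ∨ s = -1)
    (hv : ∀ i, 0 < s * dot (Λ i) v) :
    ∃ κ : ℝ, 0 < κ ∧ ∃ N0 : ℕ, ∀ N : ℕ, N0 ≤ N → ∃ T : Finset (Fin D → ℤ), κ * (N : ℝ) ^ D ≤ T.card ∧
      ∀ x ∈ T, (∀ j, (-(N : ℤ)) < x j ∧ x j ≤ N) ∧ (∀ i, 0 < s * dot (Λ i) x ∧ s * dot (Λ i) x ≤ N) ∧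
        ∀ j, (k : ℤ) ∣ x j - v j := by
  classical
  obtain ⟨κ, hκ, N1, h1⟩ := pts_lower Λ (fun j => s * v j) (by
    intro i
    have : dot (Λ i) (fun j => s * v j) = s * dot (Λ i) v := by
      unfold dot
      rw [mul_sum]
      apply sum_congr rfl; intro j _; ring
    rw [this]
    exact hv i) hs
  obtain ⟨V, hV⟩ : ∃ V : ℕ, V = ∑ j, (v j).natAbs + ∑ i, (dot (Λ i) v).natAbs := ⟨_, rfl⟩
  have hV1 : ∀ j, |v j| ≤ V := by
    intro j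
    have h2 : (v j).natAbs ≤ ∑ j, (v j).natAbs := single_le_sum (f := fun j => (v j).natAbs) (fun _ _ => Nat.zero_le _) (mem_univ j)
    rw [Int.abs_eq_natAbs]; omega
  have hV2 : ∀ i, |dot (Λ i) v| ≤ V := by
    intro i
    have h2 : (dot (Λ i) v).natAbs ≤ ∑ i, (dot (Λ i) v).natAbs :=
      single_le_sum (f := fun i => (dot (Λ i) v).natAbs) (fun _ _ => Nat.zero_le _) (mem_univ i)
    rw [Int.abs_eq_natAbs]; omega
  have hkR : (0 : ℝ) < k := by exact_mod_cast hk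
  refine ⟨κ * (1 / (4 * k)) ^ D, by positivity, 2 * V + 4 * k + 2 * k * N1, fun N hN => ?_⟩
  obtain ⟨N', hN'⟩ : ∃ N' : ℕ, N' = (N - V) / k := ⟨_, rfl⟩
  have hk1 : N' * k ≤ N - V := by rw [hN']; exact Nat.div_mul_le_self _ _
  have hk2 : N - V < k * (N' + 1) := by rw [hN']; exact Nat.lt_mul_div_succ _ (by omega)
  have hN1 : N1 ≤ N' := by
    rw [hN', Nat.le_div_iff_mul_le (by omega)]
    have : N1 * k = k * N1 := Nat.mul_comm _ _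
    nlinarith [Nat.zero_le (k * N1), Nat.sub_add_cancel (show V ≤ N by nlinarith [Nat.zero_le (k * N1)])]
  have hVN : V ≤ N := by nlinarith [Nat.zero_le (k * N1)]
  have hN3 : (N : ℝ) / (4 * k) ≤ N' := by
    rw [div_le_iff₀ (by positivity)]
    have h2 : N ≤ V + k * (N' + 1) := by omega
    have h3 : 2 * V + 4 * k ≤ N := by nlinarith [Nat.zero_le (k * N1)]
    have h5 : N ≤ 4 * k * N' := by nlinarith
    have h4 : (N : ℝ) ≤ 4 * k * N' := by exact_mod_cast h5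
    linarith
  have h2 := h1 N' hN1
  unfold Cn at h2
  set A : Set (Fin D → ℤ) := {x : Fin D → ℤ | (∀ j, (-(N' : ℤ)) < x j ∧ x j ≤ (N' : ℤ)) ∧ ∀ i, (∑ j, Λ i j * x j + (0 : Fin r → ℤ) i) ∈ (Set.univ : Set ℤ) ∧
      ((0 : ℕ) : ℤ) < s * (∑ j, Λ i j * x j + (0 : Fin r → ℤ) i) ∧ s * (∑ j, Λ i j * x j + (0 : Fin r → ℤ) i) ≤ N'} with hA
  have hfin : A.Finite := by
    apply (Finset.finite_toSet (box (fun _ : Fin D => -(N' : ℤ)) (fun _ => (N' : ℤ)))).subset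
    intro x hx
    rw [mem_coe, mem_box]
    exact hx.1
  refine ⟨hfin.toFinset.image (fun u j => v j + k * u j), ?_, ?_⟩
  · rw [card_image_of_injective, ← Set.ncard_eq_toFinset_card A hfin]
    · refine le_trans ?_ h2
      rw [mul_assoc, ← mul_pow]
      apply mul_le_mul_of_nonneg_left _ hκ.le
      apply pow_le_pow_left₀ (by positivity)
      calc 1 / (4 * (k : ℝ)) * N = N / (4 * k) := by ring
        _ ≤ N' := hN3
    · intro u u' h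
      ext j
      have h3 : v j + k * u j = v j + k * u' j := congrFun h j
      have hk0 : (k : ℤ) ≠ 0 := by exact_mod_cast (by omega : k ≠ 0)
      exact mul_left_cancel₀ hk0 (by linarith)
  · intro x hx
    rw [mem_image] at hx
    obtain ⟨u, hu, rfl⟩ := hx
    rw [Set.Finite.mem_toFinset] at hu
    obtain ⟨hu1, hu2⟩ := hu
    have hk0 : (1 : ℤ) ≤ k := by exact_mod_cast hk
    have hkN : (k : ℤ) * N' + V ≤ N := by
      have : N' * k + V ≤ N := by omega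
      have h3 : ((N' * k + V : ℕ) : ℤ) ≤ N := by exact_mod_cast this
      push_cast at h3
      linarith
    have e1 : ∀ i, dot (Λ i) (fun j => v j + k * u j) = dot (Λ i) v + k * dot (Λ i) u := by
      intro i
      unfold dot
      rw [mul_sum, ← sum_add_distrib]
      apply sum_congr rfl; intro j _; ring
    refine ⟨fun j => ?_, fun i => ?_, fun j => ?_⟩
    · have h3 := hu1 j
      have h4 := abs_le.1 (hV1 j)
      constructor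
      · have : (k : ℤ) * (-(N' : ℤ) + 1) ≤ k * u j := mul_le_mul_of_nonneg_left (by linarith [h3.1]) (by linarith)
        linarith [h4.1]
      · have : (k : ℤ) * u j ≤ k * N' := mul_le_mul_of_nonneg_left h3.2 (by linarith)
        linarith [h4.2]
    · have h3 := (hu2 i).2
      simp only [Pi.zero_apply, add_zero, Nat.cast_zero] at h3
      have h4 : dot (Λ i) u = ∑ j, Λ i j * u j := rfl
      rw [← h4] at h3
      rw [e1]
      have h5 : s * (dot (Λ i) v + k * dot (Λ i) u) = s * dot (Λ i) v + k * (s * dot (Λ i) u) := by ring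
      rw [h5]
      have h6 := hv i
      have h7 : s * dot (Λ i) v ≤ V := by
        refine (le_abs_self _).trans ?_
        rw [abs_mul]
        have : |s| = 1 := by rcases hs with rfl | rfl <;> simp
        rw [this, one_mul]
        exact hV2 i
      constructor
      · have : 0 ≤ (k : ℤ) * (s * dot (Λ i) u) := mul_nonneg (by linarith) h3.1.le
        linarith
      · have : (k : ℤ) * (s * dot (Λ i) u) ≤ k * N' := mul_le_mul_of_nonneg_left h3.2 (by linarith)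
        linarith
    · exact ⟨u j, by ring⟩

/-- many points of a residue class at which the forms have given signs -/
theorem pts_signs {D r : ℕ} (Λ : Fin r → Fin D → ℤ) {k : ℕ} (hk : 1 ≤ k) (v : Fin D → ℤ) {s : Fin r → ℤ} (hv : ∀ i, 0 < s i * dot (Λ i) v) :
    ∃ κ : ℝ, 0 < κ ∧ ∃ N0 : ℕ, ∀ N : ℕ, N0 ≤ N → ∃ T : Finset (Fin D → ℤ), κ * (N : ℝ) ^ D ≤ T.card ∧
      ∀ x ∈ T, (∀ j, (-(N : ℤ)) < x j ∧ x j ≤ N) ∧ (∀ i, 0 < s i * dot (Λ i) x ∧ s i * dot (Λ i) x ≤ N) ∧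
        ∀ j, (k : ℤ) ∣ x j - v j := by
  obtain ⟨κ, hκ, N0, h⟩ := pts_class' (fun i => s i • Λ i) hk v (s := 1) (Or.inl rfl) (by
    intro i
    rw [dot_smul_left, one_mul]
    exact hv i)
  refine ⟨κ, hκ, N0, fun N hN => ?_⟩
  obtain ⟨T, hT1, hT2⟩ := h N hN
  refine ⟨T, hT1, fun x hx => ?_⟩
  obtain ⟨b1, b2, b3⟩ := hT2 x hx
  refine ⟨b1, fun i => ?_, b3⟩
  have h4 := b2 i
  rw [dot_smul_left, one_mul] at h4
  exact h4

theorem mem_pts {D r : ℕ} (Λ : Fin r → Fin D → ℤ) (c s : Fin r → ℤ) (M N : Fin r → ℕ) (P P' : Fin D → ℤ) (S : Fin r → Set ℤ) (x : Fin D → ℤ) :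
    x ∈ pts Λ c s M N P P' S ↔ (∀ j, P j < x j ∧ x j ≤ P' j) ∧
      ∀ i, (dot (Λ i) x + c i) ∈ S i ∧ (M i : ℤ) < s i * (dot (Λ i) x + c i) ∧ s i * (dot (Λ i) x + c i) ≤ N i := by
  classical
  unfold pts
  rw [mem_filter, mem_box]

theorem univ_lower {D r L : ℕ} (hL : 1 ≤ L) (Λ : Fin r → Fin D → ℤ) {T : Finset (Fin D → ℤ)} {ρ : Fin D → ℤ} {s : Fin r → ℤ} {N : ℕ}
    (hT : ∀ x ∈ T, (∀ j, (-(N : ℤ)) < x j ∧ x j ≤ N) ∧ (∀ i, 0 < s i * dot (Λ i) x ∧ s i * dot (Λ i) x ≤ N) ∧ ∀ j, (L : ℤ) ∣ x j - ρ j) :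
    T.card ≤ (pts (fun i => (L : ℤ) • Λ i) (fun i => dot (Λ i) ρ + (0 : Fin r → ℤ) i) s (fun _ => 0) (fun _ => N)
      (fun j => (-(N : ℤ) - ρ j) / (L : ℤ)) (fun j => ((N : ℤ) - ρ j) / (L : ℤ)) (fun _ => Set.univ)).card := by
  classical
  rw [← card_image_of_injective (pts (fun i => (L : ℤ) • Λ i) (fun i => dot (Λ i) ρ + (0 : Fin r → ℤ) i) s (fun _ => 0) (fun _ => N)
      (fun j => (-(N : ℤ) - ρ j) / (L : ℤ)) (fun j => ((N : ℤ) - ρ j) / (L : ℤ)) (fun _ => Set.univ)) (sub_inj hL ρ)]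
  apply card_le_card
  intro x hx
  obtain ⟨h1, h2, h3⟩ := hT x hx
  choose y hy using h3
  have e : ρ + (L : ℤ) • y = x := by
    funext j
    simp only [Pi.add_apply, Pi.smul_apply, smul_eq_mul]
    linarith [hy j]
  rw [mem_image]
  refine ⟨y, ?_, e⟩
  rw [← pts_sub hL Λ 0 s (fun _ => 0) (fun _ => N) (fun _ => -(N : ℤ)) (fun _ => (N : ℤ)) (fun _ => Set.univ) ρ y, e, mem_pts]
  refine ⟨h1, fun i => ⟨Set.mem_univ _, ?_, ?_⟩⟩
  · simp only [Pi.zero_apply, add_zero]; push_cast; exact (h2 i).1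
  · simp only [Pi.zero_apply, add_zero]; exact (h2 i).2

/-- many sifted points -/
theorem manyDD {D r κ : ℕ} {dd : Fin r → ℤ} (hd : ∀ i, dd i % 6 = 1 ∨ dd i % 6 = 5) {Λ : Fin r → Fin (D + 1) → ℤ}
    (hΛ : ∀ i j, i ≠ j → Indep (Λ i) (Λ j)) {v : Fin (D + 1) → ℤ} {s : Fin r → ℤ} (hs : ∀ i, s i = 1 ∨ s i = -1) (hv : ∀ i, 0 < s i * dot (Λ i) v)
    {S : Fin r → Set ℤ} (hS : ∀ i, Inv (dd i) (S i))
    {φ : Fin r → ℤ → ℝ} (hφ : ∀ i, IsPhi (dd i) (s i) (S i) (φ i)) (hpos : ∀ i, 0 < φ i (dot (Λ i) v)) :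
    ∃ κ' : ℝ, 0 < κ' ∧ ∃ θ : ℝ, 0 < θ ∧ ∃ N0 : ℕ, ∀ N : ℕ, N0 ≤ N → ∀ Q : Finset ℕ, (∀ p ∈ Q, p.Prime ∧ (p : ℝ) ≤ (N : ℝ) ^ θ) →
    ∀ Ω : (p : ℕ) → Set (Fin (D + 1) → ZMod p), (∀ p ∈ Q, (Ω p).ncard * p ≤ κ * p ^ (D + 1)) →
    ∀ qq : ℕ, qq % 2 = 1 → (qq : ℝ) ≤ (N : ℝ) ^ θ → (∀ i, dd i ∣ (qq : ℤ)) → (∀ p ∈ Q, ¬ p ∣ qq) → ∀ ρ : Fin (D + 1) → ℤ, (∀ i j, dd i ∣ ρ j - v j) →
      κ' * (VV Q Ω / (qq : ℝ) ^ (D + 1)) * (N : ℝ) ^ (D + 1) ≤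
        ∑ x ∈ pts Λ 0 s (fun _ => 0) (fun _ => N) (fun _ => -(N : ℤ)) (fun _ => (N : ℤ)) S, sgq qq (rd qq ρ) Q Ω x := by
  obtain ⟨L, hLd⟩ : ∃ L : ℕ, L = lc dd := ⟨_, rfl⟩
  have hL1 : 1 ≤ L := by rw [hLd]; exact lc_pos fun i => by have := hd i; omega
  have hdL : ∀ i, dd i ∣ (L : ℤ) := fun i => by rw [hLd]; exact dvd_lc dd i
  have hLR : (1 : ℝ) ≤ L := by exact_mod_cast hL1
  obtain ⟨κ1, hκ1, N1, h1⟩ := pts_signs Λ hL1 v hv
  have h0 : ∀ i, Λ i ≠ 0 := by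
    intro i h
    have := hv i
    rw [h] at this
    unfold dot at this
    simp at this
  obtain ⟨π, hπ⟩ : ∃ π, π = ∏ i, φ i (dot (Λ i) v) := ⟨_, rfl⟩
  have hπ0 : 0 < π := by rw [hπ]; exact prod_pos fun i _ => hpos i
  obtain ⟨θ1, hθ1, N2, h2⟩ := cmpX (κ := κ) h0 hs (show 0 < κ1 / (3 * 2 ^ (D + 1)) by positivity)
  obtain ⟨θ2, hθ2, N3, h3⟩ := relDD (κ := κ) hd h0 hΛ hs (show 0 < π * κ1 / (3 * 2 ^ (D + 1)) by positivity)
  refine ⟨π * κ1 / 3, by positivity, min θ1 θ2, lt_min hθ1 hθ2, N1 + N2 + N3 + 1, fun N hN Q hQ Ω hΩ qq hqo hqN hdq hQq ρ hρ => ?_⟩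
  have hNR : (1 : ℝ) ≤ N := by exact_mod_cast (by omega : 1 ≤ N)
  have hN2 : (N : ℝ) ≤ ((2 * N : ℕ) : ℝ) := by push_cast; linarith
  have hθN : ∀ θ, min θ1 θ2 ≤ θ → 0 < θ → (N : ℝ) ^ (min θ1 θ2) ≤ ((2 * N : ℕ) : ℝ) ^ θ := fun θ h hθ =>
    (Real.rpow_le_rpow_of_exponent_le hNR h).trans (Real.rpow_le_rpow (by linarith) hN2 hθ.le)
  have hside : ∀ _j : Fin (D + 1), (N : ℤ) - -(N : ℤ) ≤ ((2 * N : ℕ) : ℤ) := fun _ => by push_cast; linarith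
  have hLq : L ∣ qq := by rw [hLd]; exact lc_dvd hdq
  have hqq1 : 1 ≤ qq := by omega
  have hqR : (0 : ℝ) < qq := by exact_mod_cast hqq1
  -- the relative law
  have a3 := h3 S hS φ hφ (2 * N) (by omega) Q (fun p hp => ⟨(hQ p hp).1, (hQ p hp).2.trans (hθN θ2 (min_le_right _ _) hθ2)⟩) Ω hΩ qq hqo
    (hqN.trans (hθN θ2 (min_le_right _ _) hθ2)) hdq hQq ρ 0 (fun _ => 0) (fun _ => N) (fun _ => Nat.zero_le _) (fun _ => by omega)
    (fun _ => -(N : ℤ)) (fun _ => (N : ℤ)) hside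
  have e1 : ∏ i, φ i (dot (Λ i) ρ + (0 : Fin r → ℤ) i) = π := by
    rw [hπ]
    apply prod_congr rfl
    intro i _
    apply phi_class (hφ i)
    simp only [Pi.zero_apply, add_zero]
    unfold dot
    rw [← sum_sub_distrib]
    apply Finset.dvd_sum
    intro j _
    rw [← mul_sub]
    exact Dvd.dvd.mul_left (hρ i j) _
  rw [e1] at a3
  -- all points
  have a2 := h2 (2 * N) (by omega) Q (fun p hp => ⟨(hQ p hp).1, (hQ p hp).2.trans (hθN θ1 (min_le_left _ _) hθ1)⟩) Ω hΩ qq hqo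
    (hqN.trans (hθN θ1 (min_le_left _ _) hθ1)) hQq ρ L hLq dd hdL (fun _ => Set.univ) (fun i x => Iff.rfl) 0 (fun _ => 0) (fun _ => N) (fun _ => Nat.zero_le _)
    (fun _ => -(N : ℤ)) (fun _ => (N : ℤ)) hside
  rw [sgq_one hL1] at a2
  obtain ⟨T, hT1, hT2⟩ := h1 N (by omega)
  have a4 := univ_lower hL1 Λ (T := T) (ρ := ρ) (s := s) (N := N) (fun x hx => by
    obtain ⟨b1, b2, b3⟩ := hT2 x hx
    refine ⟨b1, b2, fun j => ?_⟩
    have b4 : (L : ℤ) ∣ ρ j - v j := by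
      have b5 : L ∣ (ρ j - v j).natAbs := by
        rw [hLd]
        exact lc_dvd fun i => Int.dvd_natAbs.2 (hρ i j)
      exact Int.natCast_dvd.2 b5
    have e : x j - ρ j = (x j - v j) - (ρ j - v j) := by ring
    rw [e]
    exact dvd_sub (b3 j) b4)
  have hV' := VV_nn (fun p hp => (hQ p hp).1) Ω
  obtain ⟨V, hVd⟩ : ∃ V : ℝ, V = VV Q Ω / (qq : ℝ) ^ (D + 1) := ⟨_, rfl⟩
  have hV : 0 ≤ V := by rw [hVd]; positivity
  have hW : VV Q Ω / ((qq : ℝ) / L) ^ (D + 1) = V * (L : ℝ) ^ (D + 1) := by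
    rw [hVd, div_pow]; field_simp
  rw [hW, ← hVd] at a2
  rw [← hVd] at a3 ⊢
  obtain ⟨m, hm⟩ : ∃ m : ℕ, m = (pts (fun i => (L : ℤ) • Λ i) (fun i => dot (Λ i) ρ + (0 : Fin r → ℤ) i) s (fun _ => 0) (fun _ => N)
      (fun j => (-(N : ℤ) - ρ j) / (L : ℤ)) (fun j => ((N : ℤ) - ρ j) / (L : ℤ)) (fun _ => Set.univ)).card := ⟨_, rfl⟩
  rw [← hm] at a2 a4
  obtain ⟨b, hb⟩ : ∃ b, b = ∑ x ∈ pts Λ 0 s (fun _ => 0) (fun _ => N) (fun _ => -(N : ℤ)) (fun _ => (N : ℤ)) (fun _ => Set.univ), sgq qq (rd qq ρ) Q Ω x := ⟨_, rfl⟩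
  obtain ⟨a, ha⟩ : ∃ a, a = ∑ x ∈ pts Λ 0 s (fun _ => 0) (fun _ => N) (fun _ => -(N : ℤ)) (fun _ => (N : ℤ)) S, sgq qq (rd qq ρ) Q Ω x := ⟨_, rfl⟩
  rw [← hb] at a2 a3
  rw [← ha] at a3 ⊢
  have hmR : κ1 * (N : ℝ) ^ (D + 1) ≤ m := hT1.trans (by exact_mod_cast a4)
  have hNp : (0 : ℝ) < (N : ℝ) ^ (D + 1) := by positivity
  have e5 : κ1 / (3 * 2 ^ (D + 1)) * V * ((2 * N : ℕ) : ℝ) ^ (D + 1) = κ1 / 3 * (V * (N : ℝ) ^ (D + 1)) := by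
    push_cast
    rw [mul_pow]
    field_simp
  have e6 : π * κ1 / (3 * 2 ^ (D + 1)) * V * ((2 * N : ℕ) : ℝ) ^ (D + 1) = π * (κ1 / 3 * (V * (N : ℝ) ^ (D + 1))) := by
    push_cast
    rw [mul_pow]
    field_simp
  rw [e5] at a2
  rw [e6] at a3
  have c1 := (abs_le.1 a2).1
  have c2 := (abs_le.1 a3).1
  have hLp : (1 : ℝ) ≤ (L : ℝ) ^ (D + 1) := one_le_pow₀ hLR
  have c3 : V * (κ1 * (N : ℝ) ^ (D + 1)) ≤ V * (L : ℝ) ^ (D + 1) * m := by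
    rw [mul_assoc]
    apply mul_le_mul_of_nonneg_left _ hV
    calc κ1 * (N : ℝ) ^ (D + 1) ≤ m := hmR
      _ ≤ (L : ℝ) ^ (D + 1) * m := le_mul_of_one_le_left (Nat.cast_nonneg m) hLp
  have c5 : κ1 * 2 / 3 * (V * (N : ℝ) ^ (D + 1)) ≤ b := by linarith
  have c6 : π * (κ1 * 2 / 3 * (V * (N : ℝ) ^ (D + 1))) ≤ π * b := mul_le_mul_of_nonneg_left c5 hπ0.le
  calc π * κ1 / 3 * V * (N : ℝ) ^ (D + 1) = π * (κ1 * 2 / 3 * (V * (N : ℝ) ^ (D + 1))) - π * (κ1 / 3 * (V * (N : ℝ) ^ (D + 1))) := by ring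
    _ ≤ a := by linarith

end Pool.Agent.W36.GT
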